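import Mathlib
import Pool.Agent.TH235.PP.Defs

/-!
# Project MK: local PEPS approximation from conditional entropies. Definitions and statements

`cexp A`: the trace preserving conditional expectation onto the operators which act on the sites of
`A` only, `X ↦ Tr_{V ∖ A}(X) ⊗ 1 / d ^ |V ∖ A|`.
-/

set_option autoImplicit false

open scoped BigOperators Matrix ComplexOrder
open scoped Matrix.Norms.L2Operator

noncomputable section

namespace Pool.Agent.U753.MK

open Pool.Agent.TH235.PP (BoxOp TorOp Site term ham sh)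

/-- Trace preserving conditional expectations (algebraic properties). -/
structure IsCE {n : Type} [Fintype n] [DecidableEq n] (E : Matrix n n ℂ → Matrix n n ℂ) : Prop where
  add : ∀ X Y, E (X + Y) = E X + E Y
  smul : ∀ (c : ℂ) (X : Matrix n n ℂ), E (c • X) = c • E X
  tr : ∀ X, (E X).trace = X.trace
  star : ∀ X, E Xᴴ = (E X)ᴴ
  idem : ∀ X, E (E X) = E X
  mul_right : ∀ X Y, E (X * E Y) = E X * E Y
  mul_left : ∀ X Y, E (E X * Y) = E X * E Y

/-- MO1. The logarithm of an element of the range is in the range. -/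
def StmLogRange : Prop := ∀ (n : Type) [Fintype n] [DecidableEq n] (E : Matrix n n ℂ → Matrix n n ℂ),
  IsCE E → ∀ X : Matrix n n ℂ, X.IsHermitian → E (NormedSpace.exp X) = NormedSpace.exp X → E X = X

/-- MO2. Monotonicity of the relative entropy `Tr (exp X (X - Y))` of the states `exp X`, `exp Y`
under conditional expectations. -/
def StmMono : Prop := ∀ (n : Type) [Fintype n] [DecidableEq n] (E : Matrix n n ℂ → Matrix n n ℂ),
  IsCE E → ∀ X Y X' Y' : Matrix n n ℂ, X.IsHermitian → Y.IsHermitian → X'.IsHermitian →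
  Y'.IsHermitian → NormedSpace.exp X' = E (NormedSpace.exp X) →
  NormedSpace.exp Y' = E (NormedSpace.exp Y) →
  (NormedSpace.exp X' * (X' - Y')).trace.re ≤ (NormedSpace.exp X * (X - Y)).trace.re

/-- `s` on `A`, `w` elsewhere. -/
def mix {V : Type} [DecidableEq V] {d : ℕ} (A : Finset V) (s w : V → Fin d) : V → Fin d :=
  fun v => if v ∈ A then s v else w v

/-- The conditional expectation onto the operators on `A`: normalised partial trace over the sites
not in `A`, tensored with the identity. -/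
def cexp {V : Type} [Fintype V] [DecidableEq V] {d : ℕ} (A : Finset V)
    (X : Matrix (V → Fin d) (V → Fin d) ℂ) : Matrix (V → Fin d) (V → Fin d) ℂ :=
  Matrix.of fun s t => if ∀ v, v ∉ A → s v = t v then
    ((d : ℂ) ^ Fintype.card V)⁻¹ * ∑ w : V → Fin d, X (mix A s w) (mix A t w) else 0

/-- CE. Properties of `cexp`. -/
def StmCexp : Prop := ∀ (V : Type) [Fintype V] [DecidableEq V] (d : ℕ), 0 < d →
  (∀ A : Finset V, IsCE (cexp (d := d) A)) ∧
  (∀ (A B : Finset V) (X : Matrix (V → Fin d) (V → Fin d) ℂ),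
    cexp A (cexp B X) = cexp (A ∩ B) X) ∧
  (∀ (A : Finset V) (X : Matrix (V → Fin d) (V → Fin d) ℂ), X.PosDef → (cexp A X).PosDef) ∧
  (∀ X : Matrix (V → Fin d) (V → Fin d) ℂ, cexp Finset.univ X = X) ∧
  (∀ X : Matrix (V → Fin d) (V → Fin d) ℂ,
    cexp ∅ X = (X.trace * ((d : ℂ) ^ Fintype.card V)⁻¹) • (1 : Matrix (V → Fin d) (V → Fin d) ℂ))

/-- CH. Chain rule: the free energy of `H = ∑ h_v`, where for the `v` in `G` the term `-h_v` is the
difference of the logarithms of a positive operator on `P ∪ {v}` and of its conditional expectation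
on `P`, `P` consisting of sites before `v` in the order given by `pos`. -/
def StmChain : Prop := ∀ (V : Type) [Fintype V] [DecidableEq V] (d : ℕ), 0 < d →
  ∀ pos : V → ℕ, Function.Injective pos → ∀ (h : V → Matrix (V → Fin d) (V → Fin d) ℂ)
  (G : Finset V) (J : ℝ), 0 ≤ J → (∀ v, (h v).IsHermitian) →
  (∀ v ∈ G, ∃ (P : Finset V) (Y Z : Matrix (V → Fin d) (V → Fin d) ℂ),
    (∀ w ∈ P, pos w < pos v) ∧ Y.IsHermitian ∧ Z.IsHermitian ∧
    cexp (insert v P) (NormedSpace.exp Y) = NormedSpace.exp Y ∧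
    NormedSpace.exp Z = cexp P (NormedSpace.exp Y) ∧ h v = Z - Y) →
  (∀ v, v ∉ G → ‖h v‖ ≤ J) →
  Real.log (NormedSpace.exp (-∑ v, h v)).trace.re ≤
    ((Finset.univ \ G).card : ℝ) * J + (Fintype.card V : ℝ) * Real.log d

/-- TE. The embedding `X ↦ term X u` of the operators on the `R × R` box into those on the torus. -/
def StmTerm : Prop := ∀ (d R L : ℕ) [NeZero L], 0 < d → R ≤ L → ∀ u : Site L,
  (∀ X Y : BoxOp d R, term (X * Y) u = term X u * term Y u) ∧
  (term (1 : BoxOp d R) u = 1) ∧ (∀ X : BoxOp d R, ‖term X u‖ ≤ ‖X‖) ∧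
  (∀ X : BoxOp d R, NormedSpace.exp (term X u) = term (NormedSpace.exp X) u) ∧
  (∀ X : BoxOp d R, X.PosDef → (term X u).PosDef) ∧
  ∀ (A : Finset (Fin R × Fin R)) (X : BoxOp d R),
    cexp (A.image (sh u)) (term X u) = term (cexp A X) u

/-- The sites of the `b × b` box before `x` in the lexicographic order. -/
def seg {b : ℕ} (x : Fin b × Fin b) : Finset (Fin b × Fin b) :=
  Finset.univ.filter fun y => y.1 < x.1 ∨ (y.1 = x.1 ∧ y.2 < x.2)

/-- TO. The free energy of the conditional entropy interaction. -/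
def StmTor : Prop := ∀ (d b m : ℕ) [NeZero m], 2 ≤ d → 0 < b → b ≤ m → ∀ (x : Fin b × Fin b)
  (ρ : BoxOp d b), ρ.PosDef → ∀ Y Z : BoxOp d b, Y.IsHermitian → Z.IsHermitian →
  NormedSpace.exp Y = cexp (insert x (seg x)) ρ → NormedSpace.exp Z = cexp (seg x) ρ →
  ∀ J : ℝ, ‖Z - Y‖ ≤ J →
  Real.log (NormedSpace.exp
    (-ham (Z - Y + ((Real.log d : ℝ) : ℂ) • (1 : BoxOp d b)) m)).trace.re ≤ 2 * (b : ℝ) * m * J

/-- The von Neumann entropy of a Hermitian matrix. -/
def vnE {S : Type} [Fintype S] [DecidableEq S] (ρ : Matrix S S ℂ) : ℝ :=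
  if h : ρ.IsHermitian then ∑ i, Real.negMulLog (h.eigenvalues i) else 0

/-- `s` on `A`, `w` on the complement. -/
def glu {V : Type} [DecidableEq V] {d : ℕ} (A : Finset V) (s : {v // v ∈ A} → Fin d)
    (w : {v // v ∉ A} → Fin d) : V → Fin d :=
  fun v => if h : v ∈ A then s ⟨v, h⟩ else w ⟨v, h⟩

/-- The reduced matrix on `A`. -/
def ptr {V : Type} [Fintype V] [DecidableEq V] {d : ℕ} (A : Finset V)
    (ρ : Matrix (V → Fin d) (V → Fin d) ℂ) :
    Matrix ({v // v ∈ A} → Fin d) ({v // v ∈ A} → Fin d) ℂ :=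
  Matrix.of fun s t => ∑ w : {v // v ∉ A} → Fin d, ρ (glu A s w) (glu A t w)

/-- EN. Logarithms of the regularised reduced states and entropies. -/
def StmEnt : Prop := ∀ (V : Type) [Fintype V] [DecidableEq V] (d : ℕ), 2 ≤ d →
  ∀ ρ : Matrix (V → Fin d) (V → Fin d) ℂ, ρ.PosSemidef → ρ.trace = 1 →
  ∀ δ : ℝ, 0 < δ → δ ≤ 1 / 2 → ∀ A : Finset V,
  ∃ X : Matrix (V → Fin d) (V → Fin d) ℂ, X.IsHermitian ∧
    NormedSpace.exp X = cexp A (((1 - δ : ℝ) : ℂ) • ρ +
      ((δ / (d : ℝ) ^ Fintype.card V : ℝ) : ℂ) • (1 : Matrix (V → Fin d) (V → Fin d) ℂ)) ∧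
    ‖X‖ ≤ (Fintype.card V : ℝ) * Real.log d + Real.log (1 / δ) ∧
    vnE (ptr A ρ) + ((Fintype.card V : ℝ) - A.card) * Real.log d ≤ -(ρ * X).trace.re ∧
    -(ρ * X).trace.re ≤ vnE (ptr A ρ) + ((Fintype.card V : ℝ) - A.card) * Real.log d + 2 * δ

end Pool.Agent.U753.MK
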