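import Pool.Agent.U913.MK.CE
import Pool.Agent.U460.MK.MO
import Pool.Agent.U358.MK.CH
import Pool.Agent.U337.MK.TE
import Pool.Agent.U603.MK.TO
import Pool.Agent.U261.MK.EN
import Pool.Agent.N346.TP.Rdm

/-!
# The conditional entropy interaction
-/

set_option autoImplicit false

open scoped BigOperators Matrix ComplexOrder
open scoped Matrix.Norms.L2Operator

noncomputable section

namespace Pool.Agent.U753.MK

open Pool.Agent.TH235 Pool.Agent.Y738.PE

theorem cexp' : StmCexp := Pool.Agent.U913.MK.CE.t_cexp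

theorem chain' : StmChain :=
  Pool.Agent.U358.MK.CH.t_chain Pool.Agent.U460.MK.t_logRange Pool.Agent.U460.MK.t_mono cexp'

theorem term' : StmTerm := Pool.Agent.U337.MK.t_term

theorem tor' : StmTor := Pool.Agent.U603.MK.t_tor cexp' chain' term'

theorem ent' : StmEnt := Pool.Agent.U261.MK.t_ent

lemma contr_of_norm {S : Type} [Fintype S] [DecidableEq S] (B : Matrix S S ℂ) (h : ‖B‖ ≤ 1) :
    Contr (fun x y => B x y) := by
  intro f
  have h1 : nrm (fun σ => ∑ τ, B σ τ * f τ) = PP.nr (B *ᵥ f) ^ 2 := by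
    rw [PP.nr_sq]
    rfl
  have h2 : nrm f = PP.nr f ^ 2 := by
    rw [PP.nr_sq]
    rfl
  rw [h1, h2]
  refine pow_le_pow_left₀ (PP.nr_nonneg _) ((PP.nr_mulVec B f).trans ?_) 2
  exact mul_le_of_le_one_left (PP.nr_nonneg _) h

lemma seg_card {b : ℕ} (x : Fin b × Fin b) : (insert x (seg x)).card = (seg x).card + 1 := by
  rw [Finset.card_insert_of_notMem]
  unfold seg
  simp

/-- The conditional entropy at `x`: the entropy of the sites of the `b × b` box up to `x` in the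
lexicographic order minus the entropy of the sites before `x`. -/
def condE {b d : ℕ} (ρ : Matrix (Fin b × Fin b → Fin d) (Fin b × Fin b → Fin d) ℂ)
    (x : Fin b × Fin b) : ℝ :=
  vnE (ptr (insert x (seg x)) ρ) - vnE (ptr (seg x) ρ)

/-- the bound on the norm of the interaction -/
def JJ (d b : ℕ) (δ : ℝ) : ℝ :=
  2 * ((b : ℝ) ^ 2 * Real.log d + Real.log (1 / δ)) + Real.log d + 1

theorem inter (d b L m : ℕ) [NeZero L] [NeZero m] (hd : 2 ≤ d) (hb : 0 < b) (hbL : b ≤ L)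
    (hbm : b ≤ m) (x : Fin b × Fin b) (Ψ : Conf d L → ℂ) (hΨ : nrm Ψ = 1) (δ : ℝ) (hδ : 0 < δ)
    (hδ2 : δ ≤ 1 / 2) :
    ∃ h : PP.BoxOp d b, h.IsHermitian ∧ (∀ u : PP.Site m, ‖PP.term h u‖ ≤ JJ d b δ) ∧
      Contr (fun x y => (((JJ d b δ)⁻¹ : ℝ) : ℂ) * h x y) ∧
      Real.log (NormedSpace.exp (-PP.ham h m)).trace.re ≤ 2 * (b : ℝ) * m * JJ d b δ ∧
      (expec Ψ 0 (fun x y => h x y)).re ≤
        condE (Pool.Agent.N658.TP.rdm Ψ b) x + 2 * δ := by
  obtain ⟨hps, htr, -, -, hex⟩ := Pool.Agent.N346.TP.Rdm.rdmMain d L b hbL Ψ hΨ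
  obtain ⟨ρ, hρ⟩ : ∃ ρ : Matrix (BConf d b) (BConf d b) ℂ, ρ = Pool.Agent.N658.TP.rdm Ψ b :=
    ⟨_, rfl⟩
  rw [← hρ] at hps htr hex ⊢
  have hd1 : (1 : ℝ) < d := by exact_mod_cast (by omega : 1 < d)
  have hlogd : 0 < Real.log d := Real.log_pos hd1
  have hlδ : 0 ≤ Real.log (1 / δ) := Real.log_nonneg (by rw [le_div_iff₀ hδ]; linarith)
  obtain ⟨Y, hYh, hYe, hYn, hY1, hY2⟩ := ent' (Fin b × Fin b) d hd ρ hps htr δ hδ hδ2
    (insert x (seg x))
  obtain ⟨Z, hZh, hZe, hZn, hZ1, hZ2⟩ := ent' (Fin b × Fin b) d hd ρ hps htr δ hδ hδ2 (seg x)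
  have hcard : ((Fintype.card (Fin b × Fin b) : ℕ) : ℝ) = (b : ℝ) ^ 2 := by
    rw [Fintype.card_prod, Fintype.card_fin]
    push_cast
    ring
  rw [hcard] at hYn hZn hY1 hY2 hZ1 hZ2
  have hZY : ‖Z - Y‖ ≤ 2 * ((b : ℝ) ^ 2 * Real.log d + Real.log (1 / δ)) := by
    refine (norm_sub_le _ _).trans ?_
    linarith
  have hone : ‖(1 : PP.BoxOp d b)‖ ≤ 1 := by
    rcases subsingleton_or_nontrivial (PP.BoxOp d b) with hs | hs
    · have : (1 : PP.BoxOp d b) = 0 := Subsingleton.elim _ _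
      rw [this, norm_zero]
      exact zero_le_one
    · exact CStarRing.norm_one.le
  obtain ⟨h, hh⟩ : ∃ h : PP.BoxOp d b,
    h = Z - Y + ((Real.log d : ℝ) : ℂ) • (1 : PP.BoxOp d b) := ⟨_, rfl⟩
  have hnh : ‖h‖ ≤ JJ d b δ := by
    rw [hh]
    refine (norm_add_le _ _).trans ?_
    rw [norm_smul, Complex.norm_real, Real.norm_eq_abs, abs_of_pos hlogd]
    have := mul_le_of_le_one_right hlogd.le hone
    unfold JJ
    linarith
  have hJ1 : 1 ≤ JJ d b δ := by
    unfold JJ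
    have : 0 ≤ (b : ℝ) ^ 2 * Real.log d := by positivity
    linarith
  have hJ0 : 0 < JJ d b δ := by linarith
  have hherm : h.IsHermitian := by
    rw [hh]
    refine (hZh.sub hYh).add ?_
    unfold Matrix.IsHermitian
    rw [Matrix.conjTranspose_smul, Matrix.conjTranspose_one]
    congr 1
    exact Complex.conj_ofReal _
  refine ⟨h, hherm, ?_, ?_, ?_, ?_⟩
  · intro u
    obtain ⟨-, -, hT, -⟩ := term' d b m (by omega) hbm u
    exact (hT h).trans hnh
  · have h5 : ‖(((JJ d b δ)⁻¹ : ℝ) : ℂ) • h‖ ≤ 1 := by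
      rw [norm_smul, Complex.norm_real, Real.norm_eq_abs, abs_of_pos (inv_pos.2 hJ0),
        inv_mul_le_iff₀ hJ0, mul_one]
      exact hnh
    exact contr_of_norm _ h5
  · rw [hh]
    refine (tor' d b m hd hb hbm x _ ?_ Y Z hYh hZh hYe hZe _ hZY).trans ?_
    · have h6 : (((1 - δ : ℝ) : ℂ) • ρ).PosSemidef := hps.smul (by
        exact_mod_cast (by linarith : (0 : ℝ) ≤ 1 - δ))
      have h7 : (((δ / (d : ℝ) ^ Fintype.card (Fin b × Fin b) : ℝ) : ℂ) •
          (1 : Matrix (Fin b × Fin b → Fin d) (Fin b × Fin b → Fin d) ℂ)).PosDef :=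
        Matrix.PosDef.one.smul (by exact_mod_cast (by positivity :
          (0 : ℝ) < δ / (d : ℝ) ^ Fintype.card (Fin b × Fin b)))
      exact h7.posSemidef_add h6
    · unfold JJ
      have : 0 ≤ 2 * (b : ℝ) * m := by positivity
      exact mul_le_mul_of_nonneg_left (by linarith) this
  · have h8 : expec Ψ 0 (fun x y => h x y) = (ρ * h).trace := by
      rw [hex]
      rw [Matrix.trace, Finset.sum_comm]
      refine Finset.sum_congr rfl fun y _ => ?_
      rw [Matrix.diag_apply, Matrix.mul_apply]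
      refine Finset.sum_congr rfl fun z _ => ?_
      ring
    rw [h8, hh]
    have h9 : (ρ * (Z - Y + ((Real.log d : ℝ) : ℂ) • (1 : PP.BoxOp d b))).trace.re =
        (ρ * Z).trace.re - (ρ * Y).trace.re + Real.log d := by
      rw [mul_add, mul_sub, Matrix.trace_add, Matrix.trace_sub, mul_smul_comm, mul_one,
        Matrix.trace_smul, htr, smul_eq_mul, mul_one, Complex.add_re, Complex.sub_re,
        Complex.ofReal_re]
    rw [h9]
    have h10 : ((insert x (seg x)).card : ℝ) = ((seg x).card : ℝ) + 1 := by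
      rw [seg_card]
      push_cast
      ring
    rw [h10] at hY2
    unfold condE
    linarith

end Pool.Agent.U753.MK
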