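import Pool.Agent.U753.FE.ColK
import Pool.Agent.N658.TP.In

/-!
# PEPS with small expectation of an observable, in terms of a free energy: dependence on the range
-/

set_option autoImplicit false

open scoped BigOperators Matrix InnerProductSpace
open Finset Pool.Agent.TH235.PP Pool.Agent.TH235.PQ

namespace Pool.Agent.U753.MK

open Pool.Agent.N658.TP Pool.Agent.N674.TP Pool.Agent.U753.FE

open scoped Matrix.Norms.L2Operator in
lemma norm_hamT {d R L : ℕ} [NeZero L] (h : BoxOp d R) {J : ℝ} (hJ : ∀ u : Site L, ‖term h u‖ ≤ J) :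
    ‖ham h L‖ ≤ (L : ℝ) ^ 2 * J := by
  unfold ham
  refine (norm_sum_le _ _).trans ?_
  calc ∑ u : Site L, ‖term h u‖ ≤ ∑ _u : Site L, J := Finset.sum_le_sum fun u _ => hJ u
    _ = (L : ℝ) ^ 2 * J := by
        rw [Finset.sum_const, Finset.card_univ, Fintype.card_prod, ZMod.card, nsmul_eq_mul]
        push_cast
        ring

/-- the logarithm of the number of labels -/
lemma log_lab (d R' : ℕ) (hd : 2 ≤ d) :
    Real.log (4 * ((Fintype.card (Lm d (R' + 1)) : ℕ) + 1)) ≤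
      5 * ((R' : ℝ) + 1) ^ 2 * Real.log d := by
  have hc : Fintype.card (Lm d (R' + 1)) = (d ^ ((R' + 1) * (R' + 1))) ^ 2 := by
    rw [Fintype.card_prod, Fintype.card_fun, Fintype.card_prod, Fintype.card_fin, Fintype.card_fin,
      sq]
  rw [hc]
  have hd' : (2 : ℝ) ≤ d := by exact_mod_cast hd
  have hlogd : 0 ≤ Real.log d := Real.log_nonneg (by linarith)
  obtain ⟨N, hN⟩ : ∃ N : ℕ, N = (R' + 1) * (R' + 1) := ⟨_, rfl⟩
  have hN1 : 1 ≤ N := by rw [hN]; exact Nat.mul_pos (Nat.succ_pos _) (Nat.succ_pos _)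
  have hNr : (N : ℝ) = ((R' : ℝ) + 1) ^ 2 := by rw [hN]; push_cast; ring
  rw [← hN, ← hNr]
  have h1 : (1 : ℝ) ≤ ((d : ℝ) ^ N) ^ 2 := one_le_pow₀ (one_le_pow₀ (by linarith))
  have h2 : (8 : ℝ) ≤ (d : ℝ) ^ 3 := by
    calc (8 : ℝ) = 2 ^ 3 := by norm_num
      _ ≤ (d : ℝ) ^ 3 := pow_le_pow_left₀ (by norm_num) hd' 3
  have h3 : 4 * ((((d ^ N) ^ 2 : ℕ) : ℝ) + 1) ≤ (d : ℝ) ^ (3 + 2 * N) := by
    push_cast
    calc 4 * (((d : ℝ) ^ N) ^ 2 + 1) ≤ 8 * ((d : ℝ) ^ N) ^ 2 := by linarith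
      _ ≤ (d : ℝ) ^ 3 * ((d : ℝ) ^ N) ^ 2 := mul_le_mul_of_nonneg_right h2 (by positivity)
      _ = (d : ℝ) ^ (3 + 2 * N) := by rw [pow_add, ← pow_mul, mul_comm N 2]
  refine (Real.log_le_log (by positivity) h3).trans ?_
  rw [Real.log_pow]
  refine mul_le_mul_of_nonneg_right ?_ hlogd
  have : (1 : ℝ) ≤ N := by exact_mod_cast hN1
  push_cast
  linarith

/-- the numbers of the bond dimension -/
lemma num_X (lam T v J c1 c2 : ℝ) (r : ℕ) (ld : ℝ) (d R' K : ℕ) (hd : 2 ≤ d) (hlam : 0 ≤ lam)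
    (hT : 0 ≤ T) (hJ : 1 ≤ J) (hv : v = Real.log (48 * J)) (hK : K = (R' + 1) ^ 4)
    (hc1 : c1 = 100 * ((K : ℝ) + 1) ^ 2) (hc2 : c2 = 10 * (K : ℝ) * ((K : ℝ) + 1) ^ 2)
    (hld : ld = Real.log d) (hr : (r : ℝ) ≤ c2 * (c1 * (1 + J) + (2 * lam + (v + T) + 4)) + 1) :
    Real.log (4 * ((Fintype.card (Lm d (R' + 1)) : ℕ) + 1)) * (2 * r + 2) *
        ((2 * R' + 1 : ℕ) : ℝ) ^ 2 ≤
      2000000 * ld * ((R' : ℝ) + 1) ^ 24 * (J + lam + T) := by
  have hd' : (2 : ℝ) ≤ d := by exact_mod_cast hd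
  have hl0 : 0 ≤ ld := by rw [hld]; exact Real.log_nonneg (by linarith)
  have h1 := log_lab d R' hd
  rw [← hld] at h1
  obtain ⟨ρ, hρ⟩ : ∃ ρ : ℝ, ρ = (R' : ℝ) + 1 := ⟨_, rfl⟩
  rw [← hρ] at h1 ⊢
  have hρ1 : 1 ≤ ρ := by rw [hρ]; have := Nat.cast_nonneg (α := ℝ) R'; linarith
  have hKr : (K : ℝ) = ρ ^ 4 := by rw [hK, hρ]; push_cast; ring
  have hK1 : (1 : ℝ) ≤ K := by rw [hKr]; exact one_le_pow₀ hρ1
  have hv' : v ≤ 8 + J := by
    rw [hv, Real.log_mul (by norm_num) (by linarith)]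
    have e1 : Real.log 48 ≤ 8 := by
      have h2 : Real.log 48 ≤ Real.log (2 ^ 6) := Real.log_le_log (by norm_num) (by norm_num)
      rw [Real.log_pow] at h2
      have h3 := Real.log_two_lt_d9
      push_cast at h2
      linarith
    have e2 : Real.log J ≤ J := by
      have := Real.log_le_sub_one_of_pos (show 0 < J by linarith)
      linarith
    linarith
  have hQ : ((2 * R' + 1 : ℕ) : ℝ) ^ 2 ≤ 4 * ρ ^ 2 := by
    have e1 : ((2 * R' + 1 : ℕ) : ℝ) ≤ 2 * ρ := by rw [hρ]; push_cast; linarith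
    calc ((2 * R' + 1 : ℕ) : ℝ) ^ 2 ≤ (2 * ρ) ^ 2 := pow_le_pow_left₀ (Nat.cast_nonneg _) e1 2
      _ = 4 * ρ ^ 2 := by ring
  have hc1' : c1 ≤ 400 * (K : ℝ) ^ 2 := by
    rw [hc1]
    have : (K : ℝ) + 1 ≤ 2 * K := by linarith
    have e := pow_le_pow_left₀ (by linarith) this 2
    nlinarith
  have hc2' : c2 ≤ 40 * (K : ℝ) ^ 3 := by
    rw [hc2]
    have : (K : ℝ) + 1 ≤ 2 * K := by linarith
    have e := pow_le_pow_left₀ (by linarith) this 2
    have e' := mul_le_mul_of_nonneg_left e (show (0 : ℝ) ≤ 10 * K by linarith)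
    nlinarith
  have hc20 : 0 ≤ c2 := by rw [hc2]; positivity
  have hW : c1 * (1 + J) + (2 * lam + (v + T) + 4) ≤ 822 * (K : ℝ) ^ 2 * (J + lam + T) := by
    have e1 : c1 * (1 + J) ≤ 400 * (K : ℝ) ^ 2 * (2 * J) :=
      mul_le_mul hc1' (by linarith) (by linarith) (by positivity)
    have e2 : 2 * lam + (v + T) + 4 ≤ 22 * (J + lam + T) := by linarith
    have hK2 : (1 : ℝ) ≤ (K : ℝ) ^ 2 := one_le_pow₀ hK1
    have e3 : 22 * (J + lam + T) ≤ (K : ℝ) ^ 2 * (22 * (J + lam + T)) :=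
      le_mul_of_one_le_left (by positivity) hK2
    have e4 : 0 ≤ (K : ℝ) ^ 2 * (lam + T) := by positivity
    nlinarith
  have hr2 : (r : ℝ) + 1 ≤ 32882 * ρ ^ 20 * (J + lam + T) := by
    have e1 : c2 * (c1 * (1 + J) + (2 * lam + (v + T) + 4)) ≤
        (40 * (K : ℝ) ^ 3) * (822 * (K : ℝ) ^ 2 * (J + lam + T)) := by
      refine (mul_le_mul_of_nonneg_left hW hc20).trans ?_
      exact mul_le_mul_of_nonneg_right hc2' (by positivity)
    have e2 : (40 * (K : ℝ) ^ 3) * (822 * (K : ℝ) ^ 2 * (J + lam + T)) =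
        32880 * ρ ^ 20 * (J + lam + T) := by rw [hKr]; ring
    have e3 : (1 : ℝ) ≤ ρ ^ 20 * (J + lam + T) := by
      have := one_le_pow₀ hρ1 (n := 20)
      nlinarith
    linarith
  have hr0 : (0 : ℝ) ≤ r := Nat.cast_nonneg _
  have h2 : Real.log (4 * ((Fintype.card (Lm d (R' + 1)) : ℕ) + 1)) * (2 * r + 2) ≤
      (5 * ρ ^ 2 * ld) * (2 * (32882 * ρ ^ 20 * (J + lam + T))) :=
    mul_le_mul h1 (by linarith) (by positivity) (by positivity)
  calc Real.log (4 * ((Fintype.card (Lm d (R' + 1)) : ℕ) + 1)) * (2 * r + 2) *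
        ((2 * R' + 1 : ℕ) : ℝ) ^ 2
      ≤ ((5 * ρ ^ 2 * ld) * (2 * (32882 * ρ ^ 20 * (J + lam + T)))) * (4 * ρ ^ 2) :=
        mul_le_mul h2 hQ (by positivity) (by positivity)
    _ = 1315280 * (ld * ρ ^ 24 * (J + lam + T)) := by ring
    _ ≤ 2000000 * (ld * ρ ^ 24 * (J + lam + T)) := by
        have : 0 ≤ ld * ρ ^ 24 * (J + lam + T) := by positivity
        linarith
    _ = 2000000 * ld * ρ ^ 24 * (J + lam + T) := by ring

/-- cardinality of the virtual index set, logarithmic dependence on the number of labels -/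
lemma card_bdL {d R' : ℕ} (q r : ℕ) :
    ((Fintype.card (Fin 1 × (Fin (2 * R' + 1) × Fin (2 * R' + 1) → LabT d (R' + 1) q r)) : ℕ) : ℝ) ≤
      Real.exp (Real.log (4 * ((Fintype.card (Lm d (R' + 1)) : ℕ) + 1)) * (2 * r + 2) *
        ((2 * R' + 1 : ℕ) : ℝ) ^ 2) := by
  rw [Fintype.card_prod, Fintype.card_fin, Fintype.card_fun, Fintype.card_prod, Fintype.card_fin,
    one_mul]
  generalize hp : Fintype.card (LabT d (R' + 1) q r) = p
  have h1 : p ≤ 2 * (4 * (Fintype.card (Lm d (R' + 1)) + 1)) ^ (2 * r + 1) := by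
    have := count (Lm d (R' + 1)) q (2 * r + 1)
    rw [← hp, ← Nat.card_eq_fintype_card]
    exact this
  generalize Fintype.card (Lm d (R' + 1)) = P at h1
  have h2 : p ≤ (4 * (P + 1)) ^ (2 * r + 2) := by
    refine h1.trans ?_
    rw [pow_succ _ (2 * r + 1), mul_comm]
    exact Nat.mul_le_mul_left _ (by omega)
  have h3 : (p : ℝ) ≤ Real.exp (Real.log (4 * ((P : ℝ) + 1)) * (2 * r + 2)) := by
    have h4 : (p : ℝ) ≤ (4 * ((P : ℝ) + 1)) ^ (2 * r + 2) := by exact_mod_cast h2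
    refine h4.trans (le_of_eq ?_)
    rw [show Real.log (4 * ((P : ℝ) + 1)) * (2 * (r : ℝ) + 2) =
      ((2 * r + 2 : ℕ) : ℝ) * Real.log (4 * ((P : ℝ) + 1)) by push_cast; ring,
      Real.exp_nat_mul, Real.exp_log (by positivity)]
  rw [Nat.cast_pow]
  calc (p : ℝ) ^ ((2 * R' + 1) * (2 * R' + 1))
      ≤ (Real.exp (Real.log (4 * ((P : ℝ) + 1)) * (2 * r + 2))) ^ ((2 * R' + 1) * (2 * R' + 1)) :=
        pow_le_pow_left₀ (Nat.cast_nonneg _) h3 _
    _ = _ := by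
        rw [← Real.exp_nat_mul]
        congr 1
        push_cast
        ring

open scoped Matrix.Norms.L2Operator in
/-- Let `2 H_h = K - X`, `H_h` a sum of translates of an operator of norm at most `J` on a box of
side `R' + 1`. Some PEPS of bond dimension `exp (C (R' + 1) ^ 24 (J + log L + log (1 / δ)))`, `C`
depending only on `d`, has `K`-expectation at most `⟨Φ, (K - X) Φ⟩ + log Tr exp X`, for all unit
vectors `Φ`, up to errors. -/
theorem lowX (d : ℕ) (hd : 2 ≤ d) : ∃ C : ℝ, 0 < C ∧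
    ∀ (R' L : ℕ) [NeZero L], 2 ≤ L → R' + 1 ≤ L → ∀ (J' δ : ℝ), 1 ≤ J' → 0 < δ → δ ≤ 1 →
    ∀ h : BoxOp d (R' + 1), h.IsHermitian → (∀ u : Site L, ‖term h u‖ ≤ J') →
    ∀ X Kob : TorOp d L, X.IsHermitian → ((2 : ℝ) : ℂ) • ham h L = Kob - X →
    ∀ B0 : ℝ, ‖Kob‖ ≤ B0 →
    ∃ (D : ℕ) (ψ : (Site L → Fin d) → ℂ),
      (D : ℝ) ≤ Real.exp (C * ((R' : ℝ) + 1) ^ 24 * (J' + Real.log L + Real.log (1 / δ))) ∧
      IsPEPS D ψ ∧ normSq ψ = 1 ∧ ∀ Φ : (Site L → Fin d) → ℂ, normSq Φ = 1 →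
        (ip ψ (Kob *ᵥ ψ)).re ≤ (ip Φ (Kob *ᵥ Φ)).re - (ip Φ (X *ᵥ Φ)).re +
          Real.log (NormedSpace.exp X).trace.re + 1 + B0 * δ := by
  have h1 : StmFrob := Pool.Agent.N79.TP.frob
  have hlogd : 0 < Real.log d := Real.log_pos (by exact_mod_cast hd)
  refine ⟨2000000 * Real.log d, by positivity, ?_⟩
  intro R' L _ hL hRL J' δ hJ1 hδ hδ1 h hh hnT X Kob hX hKX0 B0 hB0
  obtain ⟨K, hK⟩ : ∃ K : ℕ, K = (R' + 1) ^ 4 := ⟨_, rfl⟩
  have hK1 : 1 ≤ K := by rw [hK]; exact Nat.one_le_pow _ _ (Nat.succ_pos _)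
  have hK1' : (1 : ℝ) ≤ K := by exact_mod_cast hK1
  obtain ⟨c1, hc1⟩ : ∃ c1 : ℝ, c1 = 100 * ((K : ℝ) + 1) ^ 2 := ⟨_, rfl⟩
  obtain ⟨c2, hc2⟩ : ∃ c2 : ℝ, c2 = 10 * (K : ℝ) * ((K : ℝ) + 1) ^ 2 := ⟨_, rfl⟩
  have hc10 : 0 ≤ c1 := by rw [hc1]; positivity
  have hc20 : 0 < c2 := by rw [hc2]; positivity
  obtain ⟨v, hv⟩ : ∃ v : ℝ, v = Real.log (48 * J') := ⟨_, rfl⟩
  have hv0 : 0 ≤ v := by rw [hv]; exact Real.log_nonneg (by linarith)
  obtain ⟨β, hβe⟩ : ∃ β : ℝ, β = 1 := ⟨_, rfl⟩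
  have hβ : 1 ≤ β := hβe.ge
  have hKX : ((2 * β : ℝ) : ℂ) • ham h L = Kob - X := by rw [hβe, mul_one]; exact hKX0
  have hβ0 : 0 < β := by linarith
  have hL2 : (2 : ℝ) ≤ L := by exact_mod_cast hL
  obtain ⟨lam, hlam⟩ : ∃ lam, lam = Real.log L := ⟨_, rfl⟩
  have hlam0 : 0 ≤ lam := by rw [hlam]; exact Real.log_nonneg (by linarith)
  obtain ⟨T, hT⟩ : ∃ T, T = Real.log (1 / δ) := ⟨_, rfl⟩
  have hT0 : 0 ≤ T := by
    rw [hT]
    exact Real.log_nonneg (by rw [le_div_iff₀ hδ]; linarith)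
  obtain ⟨δ', hδ'⟩ : ∃ δ' : ℝ, δ' = δ / (48 * J') := ⟨_, rfl⟩
  have hδ'0 : 0 < δ' := by rw [hδ']; positivity
  have hδ'2 : δ' ≤ 1 / 2 := by
    rw [hδ', div_le_iff₀ (by positivity)]
    linarith
  have hlogδ : Real.exp (-(v + T)) = δ' := by
    rw [hv, hT, ← Real.log_mul (by positivity) (by positivity), Real.exp_neg,
      Real.exp_log (by positivity), hδ']
    field_simp
  have hNexp : ((L ^ 2 : ℕ) : ℝ) = Real.exp (2 * lam) := by
    rw [hlam, two_mul, Real.exp_add, Real.exp_log (by linarith)]; push_cast; ring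
  obtain ⟨N, hN⟩ : ∃ N : ℝ, N = ((L ^ 2 : ℕ) : ℝ) := ⟨_, rfl⟩
  have hNL : N = (L : ℝ) ^ 2 := by rw [hN]; push_cast; ring
  have hN1 : (1 : ℝ) ≤ N := by
    rw [hN, hNexp]; exact Real.one_le_exp (by linarith)
  have hB0' : 0 ≤ β * J' := by positivity
  obtain ⟨q, hM1, hM2, hM3⟩ := par_q (β * J') N (v + T) hB0' hN1
  rw [hlogδ] at hM3
  have hM0 : (0 : ℝ) < tm q := by linarith
  obtain ⟨r, hr1, hr2⟩ := par_r c1 c2 (1 + β * J') (2 * lam + (v + T) + 4) hc20 (by positivity)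
  obtain ⟨κ, hκ⟩ : ∃ κ : ℝ, κ = β / tm q := ⟨_, rfl⟩
  have hκ0 : 0 < κ := by rw [hκ]; positivity
  have hκM : κ * tm q = β := by rw [hκ]; field_simp
  obtain ⟨y0, hy0⟩ : ∃ y0 : ℝ, y0 = κ * J' := ⟨_, rfl⟩
  have hy00 : 0 ≤ y0 := by rw [hy0]; positivity
  have hNy : N * y0 ≤ 1 / 80 := by
    have : N * y0 = N * (β * J') / tm q := by rw [hy0, hκ]; ring
    rw [this]; exact hM2
  have hMN : (tm q : ℝ) * (N * y0) ^ 2 ≤ δ' / 16 := by
    have : (tm q : ℝ) * (N * y0) ^ 2 = (N * (β * J')) ^ 2 / tm q := by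
      rw [hy0, hκ]; field_simp
    rw [this]; exact hM3
  have hMy : (tm q : ℝ) * y0 = β * J' := by rw [hy0, ← hκM]; ring
  have hrr : N * Real.exp (100 * (K + 1) ^ 2 * (1 + tm q * y0) -
      r / (10 * K * (K + 1) ^ 2)) ≤ δ' / 24 := by
    rw [hMy, hN, hNexp, ← Real.exp_add]
    have e1 : Real.exp (2 * lam + (100 * (K + 1) ^ 2 * (1 + β * J') -
        r / (10 * K * (K + 1) ^ 2))) ≤ Real.exp (-(v + T) + -4) := by
      apply Real.exp_le_exp.2
      rw [hc1, hc2] at hr1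
      linarith
    refine e1.trans ?_
    rw [Real.exp_add, hlogδ, div_eq_mul_one_div]
    exact mul_le_mul_of_nonneg_left exp_four hδ'0.le
  have hy80 : y0 ≤ 1 / 80 := (le_mul_of_one_le_left hy00 hN1).trans hNy
  -- the matrix
  have : Nonempty (Site L → Fin d) := ⟨fun _ => ⟨0, by omega⟩⟩
  have hH : (ham h L).IsHermitian := ham_herm h hh
  have hHn : ‖ham h L‖ ≤ (L : ℝ) ^ 2 * J' :=
    norm_hamT h hnT
  have heig : ∀ j, |hH.eigenvalues j| ≤ (L : ℝ) ^ 2 * J' := fun j => (eig_abs _ hH j).trans hHn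
  have hk0 : ∀ j, |κ * hH.eigenvalues j| ≤ N * y0 := by
    intro j
    rw [abs_mul, abs_of_pos hκ0]
    refine (mul_le_mul_of_nonneg_left (heig j) hκ0.le).trans (le_of_eq ?_)
    rw [hNL, hy0]; ring
  have hl : ∀ j, 3 / 4 ≤ 1 - κ * hH.eigenvalues j := fun j => by
    have := (abs_le.1 ((hk0 j).trans hNy)).2
    linarith
  obtain ⟨e⟩ : Nonempty (Fin (L ^ 2) ≃ Site L) := by
    rw [← Fintype.card_eq, Fintype.card_fin, card_site]
  obtain ⟨y, hy⟩ : ∃ y : Fin (L ^ 2) → TorOp d L,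
    y = fun b => ((-κ : ℝ) : ℂ) • term h (e b) := ⟨_, rfl⟩
  have hyn : ∀ b, ‖y b‖ ≤ y0 := by
    intro b
    rw [hy]
    simp only []
    rw [norm_smul, Complex.norm_real, Real.norm_eq_abs, abs_neg, abs_of_pos hκ0, hy0]
    exact mul_le_mul_of_nonneg_left (hnT (e b)) hκ0.le
  have hG : 1 + ∑ b, y b = 1 - (κ : ℂ) • ham h L := by
    rw [hy]
    simp only []
    rw [← Finset.smul_sum]
    have : ∑ b, term h (e b) = ham h L := by
      unfold ham
      exact e.sum_comp (fun u => term h u)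
    rw [this]
    push_cast
    rw [neg_smul, sub_eq_add_neg]
  have hKc : ∀ b, open Classical in (univ.filter fun b' => adjR R' e b b').card ≤ K := by
    intro b
    rw [hK]
    exact adjR_card e b
  have hfr := h1 (Site L → Fin d) (ham h L) hH κ hl (L ^ 2) (adjR R' e) K (adjR_symm e)
    (adjR_irr e) hK1 hKc q r y hG y0 hy00 hy80 hyn (by rw [← hN]; linarith)
    (by
      rw [← hN]
      have : 2 * (tm q : ℝ) * (N * y0) ^ 2 = 2 * (tm q * (N * y0) ^ 2) := by ring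
      rw [this]; linarith)
    (by rw [← hN]; linarith)
  rw [← hN] at hfr
  obtain ⟨A1, hA1⟩ : ∃ A1 : TorOp d L, A1 = KA (adjR R' e) q y r := ⟨_, rfl⟩
  rw [← hA1] at hfr
  have hl0 : ∀ j, 0 < 1 - κ * hH.eigenvalues j := fun j => by linarith [hl j]
  have hS0 : 0 < ∑ j, (1 - κ * hH.eigenvalues j) ^ (2 * tm q) :=
    Finset.sum_pos (fun j _ => pow_pos (hl0 j) _) Finset.univ_nonempty
  have hfr2 : fr2 (A1 - (1 - (κ : ℂ) • ham h L) ^ tm q) ≤
      δ' ^ 2 * ∑ j, (1 - κ * hH.eigenvalues j) ^ (2 * tm q) := by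
    refine hfr.trans (mul_le_mul_of_nonneg_right ?_ hS0.le)
    have hn1 : 0 ≤ N * Real.exp (100 * (K + 1) ^ 2 * (1 + tm q * y0) -
      r / (10 * K * (K + 1) ^ 2)) := by positivity
    have hn2 : 0 ≤ (tm q : ℝ) * (N * y0) ^ 2 := by positivity
    refine pow_le_pow_left₀ (by linarith) (by linarith) 2
  obtain ⟨U, hU, hU', hAd, hdec⟩ := Pool.Agent.N134.TP.Col.spec_dec' (ham h L) hH
  obtain ⟨E, hE⟩ : ∃ E : ℝ, E = (∑ j, (1 - κ * hH.eigenvalues j) ^ (2 * tm q) *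
    qf Kob (fun s => U s j)) / ∑ j, (1 - κ * hH.eigenvalues j) ^ (2 * tm q) := ⟨_, rfl⟩
  have hE' : ∑ j, (1 - κ * hH.eigenvalues j) ^ (2 * tm q) * qf Kob (fun s => U s j) =
      E * ∑ j, (1 - κ * hH.eigenvalues j) ^ (2 * tm q) := by
    rw [hE, div_mul_cancel₀ _ hS0.ne']
  obtain ⟨t, ht0, ht⟩ := colK U hU hU' hH.eigenvalues (ham h L) Kob κ (hdec κ) hl0 B0 δ' (tm q) A1
    hB0 hδ'0.le hδ'2 hfr2 E hE'
  -- the Gibbs inequality
  have hgib : ∀ Φ : (Site L → Fin d) → ℂ, normSq Φ = 1 →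
      E ≤ (ip Φ (Kob *ᵥ Φ)).re - (ip Φ (X *ᵥ Φ)).re +
        Real.log (NormedSpace.exp X).trace.re + 1 / 2 := by
    intro Φ hΦ
    have hKX' : ((2 * κ * tm q : ℝ) : ℂ) • ham h L = Kob - X := by
      rw [← hKX]
      congr 2
      rw [← hκM]; ring
    have h5 := gibbs U hU hU' hH.eigenvalues (ham h L) X Kob hAd hX κ (N * y0) (tm q)
      (by linarith) hk0 hKX' Φ hΦ
    rw [hE'] at h5
    have h6 := le_of_mul_le_mul_right h5 hS0
    have h7 : 4 * (tm q : ℝ) * (N * y0) ^ 2 ≤ 1 / 2 := by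
      have : 4 * (tm q : ℝ) * (N * y0) ^ 2 = 4 * (tm q * (N * y0) ^ 2) := by ring
      rw [this]
      linarith
    have h8 : qf Kob Φ = (ip Φ (Kob *ᵥ Φ)).re := rfl
    have h9 : qf X Φ = (ip Φ (X *ᵥ Φ)).re := rfl
    rw [← h8, ← h9]
    linarith
  obtain ⟨A, hA⟩ := peps_KA reg hRL (K := Fin 1)
    (fun x i _ _ _ _ => if i = t x then (1 : ℂ) else 0) ((-κ : ℝ) : ℂ) h e q r
  rw [basis_contract] at hA
  have hcol : A1 *ᵥ Pi.single t 1 = fun s => A1 s t := by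
    funext s
    rw [Matrix.mulVec_single_one]
    rfl
  have hx : (fun s => A1 s t) = contract A := by
    rw [← hcol, hA1, hy]
    exact hA
  rw [hx] at ht0 ht
  have hpeps : IsPEPS (Fintype.card (Fin 1 × (Fin (2 * R' + 1) × Fin (2 * R' + 1) →
      LabT d (R' + 1) q r))) (contract A) := isPEPS_contract A
  have hnr : 0 < nr (contract A) := by
    rcases (nr_nonneg (contract A)).lt_or_eq with h5 | h5
    · exact h5
    · exfalso
      have := nr_sq (contract A)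
      rw [← h5] at this
      rw [← this] at ht0
      simp at ht0
  have hnn : ‖((nr (contract A))⁻¹ : ℂ)‖ = (nr (contract A))⁻¹ := by
    rw [norm_inv, Complex.norm_real, Real.norm_eq_abs, abs_of_pos hnr]
  refine ⟨_, ((nr (contract A))⁻¹ : ℂ) • contract A, ?_, hpeps.smul _, ?_, ?_⟩
  · -- the bond dimension
    refine (card_bdL (d := d) (R' := R') q r).trans (Real.exp_le_exp.2 ?_)
    rw [← hlam, ← hT]
    rw [hβe, one_mul] at hr2
    exact num_X lam T v J' c1 c2 r (Real.log d) d R' K hd hlam0 hT0 hJ1 hv hK hc1 hc2 rfl hr2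
  · rw [← nr_sq, nr_smul, hnn, inv_mul_cancel₀ hnr.ne', one_pow]
  · intro Φ hΦ
    have hEΦ := hgib Φ hΦ
    rw [Matrix.mulVec_smul, ip_smul_right, ip_smul_left]
    have e5 : ((nr (contract A))⁻¹ : ℂ) * ((starRingEnd ℂ) ((nr (contract A))⁻¹ : ℂ) *
        ip (contract A) (Kob *ᵥ contract A)) =
        ((((nr (contract A)) ^ 2)⁻¹ : ℝ) : ℂ) * ip (contract A) (Kob *ᵥ contract A) := by
      rw [map_inv₀, Complex.conj_ofReal]
      push_cast
      ring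
    rw [e5, Complex.re_ofReal_mul]
    rw [← nr_sq] at ht
    have e6 : ((nr (contract A)) ^ 2)⁻¹ * (ip (contract A) (Kob *ᵥ contract A)).re ≤
        E + 24 * B0 * δ' := by
      rw [inv_mul_le_iff₀ (by positivity)]
      exact ht.trans (le_of_eq (mul_comm _ _))
    refine e6.trans ?_
    have hB00 : 0 ≤ B0 := (norm_nonneg _).trans hB0
    have e7 : 24 * B0 * δ' ≤ B0 * δ := by
      rw [hδ']
      have : 24 * B0 * (δ / (48 * J')) = B0 * δ * (1 / (2 * J')) := by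
        field_simp
        ring
      rw [this]
      refine mul_le_of_le_one_right (by positivity) ?_
      rw [div_le_one (by positivity)]
      linarith
    linarith

end Pool.Agent.U753.MK
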