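import Mathlib

set_option autoImplicit false

namespace Pool.Agent.U753.MK

/-- the numbers of the energy estimate -/
theorem num_enX (n m κ ε t r b J cr C E0 Eψ Eφ Eh HH lg : ℝ) (hm : m = 2 * n)
    (hm1 : 1 ≤ m) (hκ : 0 ≤ κ) (hε : 0 < ε) (ht : t = 1 + κ / ε)
    (hb : 1 ≤ b) (hJ : 1 ≤ J) (hcr : 0 ≤ cr)
    (hC4 : 7 + cr ≤ C) (hCr : 6 * r ≤ C)
    (hCm : C * b * J / ε ≤ m) (hE : Eφ ≤ m ^ 2 * E0 + 12 * r * n)
    (hH : HH ≤ m ^ 2 * Eh + 12 * b * n * J) (hlg : lg + m ^ 2 * Eh ≤ κ * m ^ 2)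
    (hP : t * Eψ ≤ t * Eφ + HH + lg + 1 + t * (m ^ 2 * cr) * ε) :
    Eψ ≤ (E0 + C * ε) * m ^ 2 := by
  have hmε : C * b * J ≤ m * ε := by rwa [div_le_iff₀ hε] at hCm
  have hm0 : 0 < m := by linarith
  have hC0 : 0 < C := by linarith
  have hbJ : 1 ≤ b * J := by nlinarith
  have hbJ0 : 0 ≤ b * J := by linarith
  have hCb : C ≤ C * b * J := by nlinarith
  have h7 : 7 * (b * J) ≤ m * ε := by nlinarith
  have hCm2 : C * m ≤ ε * m ^ 2 := by nlinarith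
  have hκε : 0 ≤ κ / ε := by positivity
  have ht1 : 1 ≤ t := by rw [ht]; linarith
  have ht0 : 0 < t := by linarith
  have hεm : 0 ≤ ε * m ^ 2 := by positivity
  have h2 : HH + lg + 1 ≤ κ * m ^ 2 + ε * m ^ 2 := by
    have e : 12 * b * n * J = 6 * (b * J) * m := by rw [hm]; ring
    rw [e] at hH
    have h3 : 7 * (b * J) * m ≤ ε * m ^ 2 := by nlinarith
    have h4 : 1 ≤ b * J * m := by nlinarith
    linarith
  have h5 : κ * m ^ 2 ≤ t * (ε * m ^ 2) := by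
    have h6 : κ * m ^ 2 = (κ / ε) * (ε * m ^ 2) := by field_simp
    rw [h6, ht]
    nlinarith
  have h7' : ε * m ^ 2 ≤ t * (ε * m ^ 2) := le_mul_of_one_le_left hεm ht1
  have h8 : t * Eφ ≤ t * (m ^ 2 * E0 + 12 * r * n) := mul_le_mul_of_nonneg_left hE ht0.le
  have h9 : 12 * r * n ≤ ε * m ^ 2 := by
    have e : 12 * r * n = 6 * r * m := by rw [hm]; ring
    rw [e]
    have := mul_le_mul_of_nonneg_right hCr hm0.le
    linarith
  have h10 : t * Eψ ≤ t * (m ^ 2 * E0 + 3 * (ε * m ^ 2) + m ^ 2 * cr * ε) := by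
    have h11 : t * (12 * r * n) ≤ t * (ε * m ^ 2) := mul_le_mul_of_nonneg_left h9 ht0.le
    nlinarith
  have h12 := le_of_mul_le_mul_left h10 ht0
  refine h12.trans ?_
  have h13 : 3 * (ε * m ^ 2) + m ^ 2 * cr * ε ≤ C * (ε * m ^ 2) := by
    have : (3 + cr) * (ε * m ^ 2) ≤ C * (ε * m ^ 2) :=
      mul_le_mul_of_nonneg_right (by linarith) hεm
    nlinarith
  nlinarith


end Pool.Agent.U753.MK
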