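import Pool.Agent.U753.MK.LowX
import Pool.Agent.U753.MK.NumX
import Pool.Agent.U753.FE.Ext
import Pool.Agent.N712.TP.ReachF
import Pool.Agent.N152.TP.CmpF

/-!
# `Reach` in terms of the free energy of an interaction of range `b` and norm `J`:
bond dimension `exp (C b ^ 24 (J + κ / ε + log m))`
-/

set_option autoImplicit false

open scoped BigOperators ComplexConjugate Classical InnerProductSpace Matrix ComplexOrder
open scoped Matrix.Norms.L2Operator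

noncomputable section

namespace Pool.Agent.U753.MK

open Pool.Agent.N658.TP Pool.Agent.Y738.PE Pool.Agent.TH235 Pool.Agent.N163.TP Pool.Agent.N79.TP
  Pool.Agent.N712.TP Pool.Agent.U753.FE

/-- `Reach` with a bond dimension controlled by the free energy of an interaction `h` on `b × b`
boxes with norm at most `J`; the exponent is `b ^ 24 (J + κ / ε + log m)`. -/
def StmReachX : Prop := ∀ (d r : ℕ), 2 ≤ d → 0 < r → ∃ C : ℝ, 0 < C ∧
  ∀ (R' n L : ℕ) [NeZero L] [NeZero (2 * n)], 2 * n ≤ L →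
  ∀ ε : ℝ, 0 < ε → ε ≤ 1 → ∀ J : ℝ, 1 ≤ J → C * ((R' : ℝ) + 1) * J / ε ≤ ((2 * n : ℕ) : ℝ) →
  ∀ Ψ : Conf d L → ℂ, nrm Ψ = 1 →
  (∀ (r : ℕ) (v : Site L) (B : BConf d r → BConf d r → ℂ), expec Ψ v B = expec Ψ 0 B) →
  ∀ h : Pool.Agent.TH235.PP.BoxOp d (R' + 1), h.IsHermitian →
  (∀ u : PP.Site (2 * n), ‖PP.term h u‖ ≤ J) → Contr (fun x y => ((J⁻¹ : ℝ) : ℂ) * h x y) →
  ∀ κ : ℝ, 0 ≤ κ →
  Real.log (NormedSpace.exp (-Pool.Agent.TH235.PP.ham h (2 * n))).trace.re +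
    ((2 * n : ℕ) : ℝ) ^ 2 * (expec Ψ 0 (fun x y => h x y)).re ≤ κ * ((2 * n : ℕ) : ℝ) ^ 2 →
  ∃ f : ℕ, (f : ℝ) ≤ Real.exp (C * ((R' : ℝ) + 1) ^ 24 *
      (J + κ / ε + Real.log ((2 * n : ℕ) : ℝ))) ∧
    Reach d r (2 * n) f (fun B => expec Ψ 0 B) (C * ε)

theorem reachX : StmReachX := by
  intro d r hd hr
  obtain ⟨r', rfl⟩ : ∃ r', r = r' + 1 := ⟨r - 1, by omega⟩
  obtain ⟨cr, hcr⟩ : ∃ cr : ℝ, cr = ((Fintype.card (BConf d (r' + 1)) : ℕ) : ℝ) *
    ((Fintype.card (BConf d (r' + 1)) : ℕ) : ℝ) := ⟨_, rfl⟩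
  have hcr0 : 0 ≤ cr := by rw [hcr]; positivity
  obtain ⟨C0, hC0, HL⟩ := lowX d hd
  obtain ⟨q, hq⟩ : ∃ q : ℝ, q = ((r' : ℝ) + 1) ^ 24 := ⟨_, rfl⟩
  have hq0 : 0 ≤ q := by rw [hq]; positivity
  obtain ⟨C, hC⟩ : ∃ C : ℝ, C = 7 + cr + 6 * ((r' + 1 : ℕ) : ℝ) +
    C0 * q * (4 + cr) := ⟨_, rfl⟩
  have e1 : 0 ≤ 6 * ((r' + 1 : ℕ) : ℝ) := by positivity
  have e2 : 0 ≤ C0 * q * (4 + cr) := by positivity
  have hCpos : 0 < C := by rw [hC]; linarith
  have hC7 : 7 ≤ C := by rw [hC]; linarith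
  refine ⟨C, hCpos, ?_⟩
  intro R' n L _ _ hnL ε hε hε1 J hJ1 hCm Ψ hΨ hTI h hh hhJ hhC κ hκ hfree
  obtain ⟨S, hS⟩ : ∃ S : ℕ, S = max R' r' := ⟨_, rfl⟩
  have hRS : R' + 1 ≤ S + 1 := by rw [hS]; have := le_max_left R' r'; omega
  have hrS : r' + 1 ≤ S + 1 := by rw [hS]; have := le_max_right R' r'; omega
  have hSr : ((S : ℝ) + 1) ≤ ((R' : ℝ) + 1) * ((r' : ℝ) + 1) := by
    have a1 : (0 : ℝ) ≤ R' := Nat.cast_nonneg _
    have a2 : (0 : ℝ) ≤ r' := Nat.cast_nonneg _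
    rw [hS]
    rcases le_total R' r' with h5 | h5
    · rw [max_eq_right h5]
      exact le_mul_of_one_le_left (by linarith) (by linarith)
    · rw [max_eq_left h5]
      exact le_mul_of_one_le_right (by linarith) (by linarith)
  have hn : 0 < n := by
    have := NeZero.pos (2 * n)
    omega
  have hR1 : (1 : ℝ) ≤ (R' : ℝ) + 1 := by
    have := Nat.cast_nonneg (α := ℝ) R'
    linarith
  have hCe : C * ((R' : ℝ) + 1) ≤ ((2 * n : ℕ) : ℝ) := by
    refine le_trans ?_ hCm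
    rw [le_div_iff₀ hε]
    have q1 : 0 ≤ C * ((R' : ℝ) + 1) := by positivity
    exact mul_le_mul_of_nonneg_left (hε1.trans hJ1) q1
  have hCle : C ≤ ((2 * n : ℕ) : ℝ) := (le_mul_of_one_le_right hCpos.le hR1).trans hCe
  have hrn : r' + 1 ≤ n := by
    have g1 : 6 * ((r' + 1 : ℕ) : ℝ) ≤ ((2 * n : ℕ) : ℝ) := by
      have : 6 * ((r' + 1 : ℕ) : ℝ) ≤ C := by rw [hC]; linarith
      linarith
    have g2 : 6 * (r' + 1) ≤ 2 * n := by exact_mod_cast g1
    omega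
  have hRn : R' + 1 ≤ n := by
    have g1 : 6 * ((R' + 1 : ℕ) : ℝ) ≤ ((2 * n : ℕ) : ℝ) := by
      refine le_trans ?_ hCe
      rw [show ((R' + 1 : ℕ) : ℝ) = (R' : ℝ) + 1 by push_cast; ring]
      exact mul_le_mul_of_nonneg_right (by linarith) (by linarith)
    have g2 : 6 * (R' + 1) ≤ 2 * n := by exact_mod_cast g1
    omega
  have hrm : r' + 1 ≤ 2 * n := by omega
  have hRm : R' + 1 ≤ 2 * n := by omega
  have hSm : S + 1 ≤ 2 * n := by
    rw [hS]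
    rcases le_total R' r' with h5 | h5
    · rw [max_eq_right h5]; exact hrm
    · rw [max_eq_left h5]; exact hRm
  have hm2 : 2 ≤ 2 * n := by omega
  obtain ⟨φ, hφ, hφE⟩ := Pool.Agent.N152.TP.cmpF d n L hn hnL Ψ hΨ hTI
  have hH : qf (PP.ham h (2 * n)) φ ≤ ((2 * n : ℕ) : ℝ) ^ 2 * (expec Ψ 0 (fun x y => h x y)).re +
      12 * ((R' + 1 : ℕ) : ℝ) * n * J := by
    have g4 : qf (PP.ham h (2 * n)) φ = (enS φ (fun x y => h x y)).re := by
      unfold qf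
      rw [← ip_ham hRm (fun x y => h x y)]
      rfl
    have hJ0' : (0 : ℝ) < J := by linarith
    have g5 : ‖((J⁻¹ : ℝ) : ℂ) * enS φ (fun x y => h x y) - ((2 * n : ℕ) : ℂ) ^ 2 *
        (((J⁻¹ : ℝ) : ℂ) * expec Ψ 0 (fun x y => h x y))‖ ≤ 12 * ((R' + 1 : ℕ) : ℝ) * n := by
      rw [← enS_smul φ _ (fun x y => h x y), ← expec_smul Ψ 0 _ (fun x y => h x y)]
      exact hφE (R' + 1) (Nat.succ_pos _) hRn _ hhC
    have g6 : ((J⁻¹ : ℝ) : ℂ) * enS φ (fun x y => h x y) - ((2 * n : ℕ) : ℂ) ^ 2 *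
        (((J⁻¹ : ℝ) : ℂ) * expec Ψ 0 (fun x y => h x y)) =
        ((J⁻¹ : ℝ) : ℂ) * (enS φ (fun x y => h x y) - ((2 * n : ℕ) : ℂ) ^ 2 *
          expec Ψ 0 (fun x y => h x y)) := by ring
    rw [g6, norm_mul, Complex.norm_real, Real.norm_eq_abs, abs_of_pos (inv_pos.2 hJ0'),
      inv_mul_le_iff₀ hJ0'] at g5
    have g7 := (Complex.abs_re_le_norm _).trans g5
    rw [Complex.sub_re] at g7
    have g8 : (((2 * n : ℕ) : ℂ) ^ 2 * expec Ψ 0 (fun x y => h x y)).re =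
        ((2 * n : ℕ) : ℝ) ^ 2 * (expec Ψ 0 (fun x y => h x y)).re := by
      have : (((2 * n : ℕ) : ℂ) ^ 2) = ((((2 * n : ℕ) : ℝ) ^ 2 : ℝ) : ℂ) := by
        push_cast; ring
      rw [this, Complex.re_ofReal_mul]
    rw [g8] at g7
    have g9 := (abs_le.1 g7).2
    rw [g4]
    push_cast at g9 ⊢
    linarith
  -- the parameters
  obtain ⟨t, ht⟩ : ∃ t : ℝ, t = 1 + κ / ε := ⟨_, rfl⟩
  have hκε : 0 ≤ κ / ε := by positivity
  have ht1 : 1 ≤ t := by rw [ht]; linarith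
  obtain ⟨m, hm⟩ : ∃ m : ℝ, m = ((2 * n : ℕ) : ℝ) := ⟨_, rfl⟩
  have hm1 : 1 ≤ m := by rw [hm]; exact_mod_cast (by omega : 1 ≤ 2 * n)
  have hlm : 0 ≤ Real.log m := Real.log_nonneg hm1
  refine ⟨⌊Real.exp (C * ((R' : ℝ) + 1) ^ 24 * (J + κ / ε + Real.log ((2 * n : ℕ) : ℝ)))⌋₊,
    Nat.floor_le (Real.exp_pos _).le, ?_⟩
  intro B hB hBc
  have hherm : (Matrix.of B : PP.BoxOp d (r' + 1)).IsHermitian := by
    refine Matrix.IsHermitian.ext fun i j => ?_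
    show star (B j i) = B i j
    rw [hB i j]
    simp
  have hJB : PP.nJ (Matrix.of B : PP.BoxOp d (r' + 1)) ≤ cr := by
    unfold PP.nJ
    rw [hcr]
    calc ∑ p : BConf d (r' + 1), ∑ q : BConf d (r' + 1), ‖Matrix.of B p q‖
        ≤ ∑ _p : BConf d (r' + 1), ∑ _q : BConf d (r' + 1), (1 : ℝ) :=
          Finset.sum_le_sum fun p _ => Finset.sum_le_sum fun q _ => contr_entry B hBc p q
      _ = _ := by
        simp only [Finset.sum_const, Finset.card_univ, nsmul_eq_mul, mul_one]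
  -- the common interaction
  obtain ⟨g, hg⟩ : ∃ g : PP.BoxOp d (S + 1), g = ((1 / 2 : ℝ) : ℂ) • ext hRS h +
    ((t / 2 : ℝ) : ℂ) • ext hrS (Matrix.of B) := ⟨_, rfl⟩
  have hgh : g.IsHermitian := by
    rw [hg]
    exact (herm_smul _ (ext_herm hRS h hh) _).add (herm_smul _ (ext_herm hrS _ hherm) _)
  have hgJ : ∀ u : PP.Site (2 * n), ‖PP.term g u‖ ≤ J + t * cr := by
    intro u
    rw [hg, term_add', Pool.Agent.N712.TP.term_smul, Pool.Agent.N712.TP.term_smul, term_ext hRS hSm, term_ext hrS hSm]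
    refine (norm_add_le _ _).trans ?_
    rw [norm_smul, norm_smul, Complex.norm_real, Complex.norm_real, Real.norm_eq_abs,
      Real.norm_eq_abs, abs_of_nonneg (by positivity), abs_of_nonneg (by positivity)]
    have k1 := hhJ u
    have k2 := (PP.norm_term (Matrix.of B : PP.BoxOp d (r' + 1)) u).trans hJB
    have k3 := mul_le_mul_of_nonneg_left k2 (show 0 ≤ t by linarith)
    have k4 : 0 ≤ t * cr := by positivity
    linarith
  have hKX : ((2 : ℝ) : ℂ) • PP.ham g (2 * n) =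
      ((t : ℝ) : ℂ) • PP.ham (Matrix.of B : PP.BoxOp d (r' + 1)) (2 * n) -
        (-PP.ham h (2 * n)) := by
    rw [hg, ham_add, Pool.Agent.N712.TP.ham_smul, Pool.Agent.N712.TP.ham_smul, ham_ext hRS hSm, ham_ext hrS hSm, smul_add, smul_smul,
      smul_smul]
    have k1 : ((2 : ℝ) : ℂ) * ((1 / 2 : ℝ) : ℂ) = 1 := by
      rw [← Complex.ofReal_mul]
      norm_num
    have k2 : ((2 : ℝ) : ℂ) * ((t / 2 : ℝ) : ℂ) = ((t : ℝ) : ℂ) := by
      rw [← Complex.ofReal_mul]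
      congr 1
      field_simp
    rw [k1, k2, one_smul, sub_neg_eq_add, add_comm]
  have hXh : (-PP.ham h (2 * n)).IsHermitian := (PP.ham_herm _ hh).neg
  have hKn : ‖((t : ℝ) : ℂ) • PP.ham (Matrix.of B : PP.BoxOp d (r' + 1)) (2 * n)‖ ≤
      t * (((2 * n : ℕ) : ℝ) ^ 2 * cr) := by
    rw [norm_smul, Complex.norm_real, Real.norm_eq_abs, abs_of_nonneg (by linarith)]
    refine mul_le_mul_of_nonneg_left ?_ (by linarith)
    exact (PP.norm_ham _).trans (mul_le_mul_of_nonneg_left hJB (by positivity))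
  have hJt : 1 ≤ J + t * cr := by
    have : 0 ≤ t * cr := by positivity
    linarith
  obtain ⟨D, ψ, hD, hψ, hψ1, hψE⟩ := HL S (2 * n) hm2 hSm (J + t * cr) ε hJt hε hε1 g hgh hgJ _ _
    hXh hKX _ hKn
  have hDf : D ≤ ⌊Real.exp (C * ((R' : ℝ) + 1) ^ 24 *
      (J + κ / ε + Real.log ((2 * n : ℕ) : ℝ)))⌋₊ := by
    refine Nat.le_floor (hD.trans (Real.exp_le_exp.2 ?_))
    rw [← hm]
    have hlε : Real.log (1 / ε) ≤ Real.log m := by
      refine Real.log_le_log (by positivity) ?_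
      rw [hm]
      refine le_trans ?_ hCm
      refine div_le_div_of_nonneg_right ?_ hε.le
      have q1 : 1 ≤ C * ((R' : ℝ) + 1) := by
        have := mul_le_mul (show (1 : ℝ) ≤ C by linarith) hR1 zero_le_one (by linarith)
        linarith
      have q2 := mul_le_mul q1 hJ1 zero_le_one (by linarith)
      linarith
    have k1 : J + t * cr + Real.log m + Real.log (1 / ε) ≤
        (4 + cr) * (J + κ / ε + Real.log m) := by
      have q1 : 0 ≤ cr * Real.log m := by positivity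
      have q2 : cr ≤ cr * J := le_mul_of_one_le_right hcr0 hJ1
      have q3 : t * cr = cr + cr * (κ / ε) := by rw [ht]; ring
      have q4 : (4 + cr) * (J + κ / ε + Real.log m) = 4 * J + 4 * (κ / ε) + 4 * Real.log m +
        (cr * J + cr * (κ / ε) + cr * Real.log m) := by ring
      rw [q3, q4]
      linarith
    have k2 : 0 ≤ J + κ / ε + Real.log m := by linarith
    have k3 : ((S : ℝ) + 1) ^ 24 ≤ ((R' : ℝ) + 1) ^ 24 * q := by
      rw [hq, ← mul_pow]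
      exact pow_le_pow_left₀ (by positivity) hSr 24
    have k5 : 0 ≤ ((R' : ℝ) + 1) ^ 24 := by positivity
    have k6 : 0 ≤ ((S : ℝ) + 1) ^ 24 := by positivity
    generalize ((R' : ℝ) + 1) ^ 24 = p at k3 k5 ⊢
    generalize ((S : ℝ) + 1) ^ 24 = p' at k3 k6 ⊢
    have k4 : 0 ≤ J + t * cr + Real.log m + Real.log (1 / ε) := by
      have q1 : 0 ≤ Real.log (1 / ε) := Real.log_nonneg (by rw [le_div_iff₀ hε]; linarith)
      linarith
    calc C0 * p' * (J + t * cr + Real.log m + Real.log (1 / ε))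
        ≤ C0 * (p * q) * ((4 + cr) * (J + κ / ε + Real.log m)) :=
          mul_le_mul (mul_le_mul_of_nonneg_left k3 hC0.le) k1 k4 (by positivity)
      _ = (C0 * q * (4 + cr)) * (p * (J + κ / ε + Real.log m)) := by ring
      _ ≤ C * (p * (J + κ / ε + Real.log m)) :=
          mul_le_mul_of_nonneg_right (by rw [hC]; linarith) (by positivity)
      _ = _ := by ring
  obtain ⟨Ac, hAc⟩ := hψ
  refine ⟨padT _ Ac, ?_, ?_⟩
  · rw [pepsN_pad hDf, ← hAc]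
    exact hψ1
  · rw [pepsN_pad hDf, ← hAc, ← ip_ham hrm B]
    have hmain := hψE φ hφ
    have g0 : ∀ v : Conf d (2 * n) → ℂ,
        (PP.ip v ((((t : ℝ) : ℂ) • PP.ham (Matrix.of B : PP.BoxOp d (r' + 1)) (2 * n)) *ᵥ v)).re =
        t * (PP.ip v (PP.ham (Matrix.of B : PP.BoxOp d (r' + 1)) (2 * n) *ᵥ v)).re :=
      fun v => qf_smulA _ t v
    have g0' : (PP.ip φ ((-PP.ham h (2 * n)) *ᵥ φ)).re =
        -1 * qf (PP.ham h (2 * n)) φ := by
      have h5 := qf_smulA (PP.ham h (2 * n)) (-1) φ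
      rw [Complex.ofReal_neg, Complex.ofReal_one, neg_smul, one_smul] at h5
      exact h5
    rw [g0, g0, g0'] at hmain
    have g3 : (PP.ip φ (PP.ham (Matrix.of B : PP.BoxOp d (r' + 1)) (2 * n) *ᵥ φ)).re ≤
        ((2 * n : ℕ) : ℝ) ^ 2 * (expec Ψ 0 B).re + 12 * ((r' + 1 : ℕ) : ℝ) * (n : ℝ) := by
      have g4 : (PP.ip φ (PP.ham (Matrix.of B : PP.BoxOp d (r' + 1)) (2 * n) *ᵥ φ)).re =
          (enS φ B).re := by
        rw [ip_ham hrm B]
      have g5 := (Complex.abs_re_le_norm _).trans (hφE (r' + 1) (Nat.succ_pos _) hrn B hBc)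
      rw [Complex.sub_re] at g5
      have g6 : (((2 * n : ℕ) : ℂ) ^ 2 * expec Ψ 0 B).re =
          ((2 * n : ℕ) : ℝ) ^ 2 * (expec Ψ 0 B).re := by
        have : (((2 * n : ℕ) : ℂ) ^ 2) = ((((2 * n : ℕ) : ℝ) ^ 2 : ℝ) : ℂ) := by
          push_cast; ring
        rw [this, Complex.re_ofReal_mul]
      rw [g6] at g5
      have g7 := (abs_le.1 g5).2
      rw [g4]
      push_cast at g7 ⊢
      linarith
    refine num_enX (n : ℝ) ((2 * n : ℕ) : ℝ) κ ε t ((r' + 1 : ℕ) : ℝ) ((R' + 1 : ℕ) : ℝ) J cr C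
      (expec Ψ 0 B).re _ _ (expec Ψ 0 (fun x y => h x y)).re (qf (PP.ham h (2 * n)) φ)
      (Real.log (NormedSpace.exp (-PP.ham h (2 * n))).trace.re)
      (by push_cast; ring) (by exact_mod_cast (by omega : 1 ≤ 2 * n)) hκ hε ht
      (by push_cast; exact hR1) hJ1 hcr0 (by rw [hC]; linarith) (by rw [hC]; linarith)
      (by push_cast at hCm ⊢; exact hCm) g3 hH hfree ?_
    linarith

end Pool.Agent.U753.MK
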