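import Pool.Agent.U753.MK.HX
import Pool.Agent.U753.MK.ReachX
import Pool.Agent.N658.TP.In3

/-!
# Bond dimension in terms of the conditional entropy
-/

set_option autoImplicit false

open scoped BigOperators ComplexConjugate Classical InnerProductSpace Matrix ComplexOrder
open scoped Matrix.Norms.L2Operator

noncomputable section

namespace Pool.Agent.U753.MK

open Pool.Agent.Y738.PE Pool.Agent.N658.TP

/-- Bond dimension in terms of the conditional entropy at one site of one box. -/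
def StmMk1 : Prop := ∀ (d : ℕ), 2 ≤ d → ∀ R : Finset (ℤ × ℤ), ∃ C : ℝ, 0 < C ∧
  ∀ ε : ℝ, 0 < ε → ε ≤ 1 → ∀ b : ℕ, 1 ≤ b → ∀ x : Fin b × Fin b,
  ∀ (L : ℕ) [NeZero L], C * (b / ε) ^ 3 ≤ L →
  ∀ Ψ : Conf d L → ℂ, nrm Ψ = 1 → TransInv Ψ → ∀ κ : ℝ, 0 ≤ κ → condE (rdm Ψ b) x ≤ κ →
  ∃ (D : ℕ) (A : Tensor d D),
    (D : ℝ) ≤ Real.exp (C * (b : ℝ) ^ 26 * (κ / ε + Real.log (2 / ε))) ∧
    ∀ (L' : ℕ) [NeZero L'], C * (b / ε) ^ 12 ≤ L' →
      nrm (pepsX A L') ≠ 0 ∧ Close R Ψ (pepsX A L') ε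

/-- the numbers: the norm `J` of the interaction, `l = log (2 / ε)` -/
lemma num_J (d b : ℕ) (c C₁ ε l ε' δ ld : ℝ) (hb : 1 ≤ b) (hc : 1 ≤ c) (hC : 1 ≤ C₁)
    (hε : 0 < ε) (hε1 : ε ≤ 1) (hl : l = Real.log (2 / ε)) (hld : ld = Real.log d) (hld0 : 0 ≤ ld)
    (hε' : ε' = ε / (2 * c * C₁)) (hδ : δ = ε' / 4) :
    JJ d b δ ≤ (6 * ld + 4 + 4 * Real.log (4 * c * C₁)) * (b : ℝ) ^ 2 * l := by
  have hcC : 1 ≤ c * C₁ := by nlinarith
  have hlc : 0 ≤ Real.log (4 * c * C₁) := Real.log_nonneg (by nlinarith)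
  have hb1 : (1 : ℝ) ≤ (b : ℝ) ^ 2 := one_le_pow₀ (by exact_mod_cast hb)
  have hl2 : 1 / 2 ≤ l := by
    rw [hl]
    have h3 : Real.log 2 ≤ Real.log (2 / ε) := by
      refine Real.log_le_log (by norm_num) ?_
      rw [le_div_iff₀ hε]
      linarith
    have := Real.log_two_gt_d9
    linarith
  have e1 : Real.log (1 / δ) = Real.log (4 * c * C₁) + l := by
    rw [hδ, hε', hl, ← Real.log_mul (by positivity) (by positivity)]
    congr 1
    field_simp
  unfold JJ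
  rw [e1, ← hld]
  have p1 : (1 / 2 : ℝ) ≤ (b : ℝ) ^ 2 * l := by nlinarith
  have p2 : l ≤ (b : ℝ) ^ 2 * l := by nlinarith
  have p3 : (b : ℝ) ^ 2 * (1 / 2) ≤ (b : ℝ) ^ 2 * l := by nlinarith
  nlinarith

theorem mk1 : StmMk1 := by
  intro d hd R
  obtain ⟨r, hr, hreg⟩ := region_of_box d R
  obtain ⟨c, hc1, hfin⟩ := fin_box pipe' d r hd hr
  obtain ⟨C₁', hC₁', hreach⟩ := reachX d r hd hr
  obtain ⟨C₁, hC₁⟩ : ∃ C₁ : ℝ, C₁ = max C₁' 1 := ⟨_, rfl⟩
  have hC1 : 1 ≤ C₁ := by rw [hC₁]; exact le_max_right _ _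
  have hCC : C₁' ≤ C₁ := by rw [hC₁]; exact le_max_left _ _
  have hr1 : (1 : ℝ) ≤ r := by exact_mod_cast hr
  have hc0 : 0 < c := by linarith
  have hC0 : 0 < C₁ := by linarith
  obtain ⟨ld, hld⟩ : ∃ ld : ℝ, ld = Real.log d := ⟨_, rfl⟩
  have hld0 : 0 ≤ ld := by
    rw [hld]
    exact Real.log_nonneg (by exact_mod_cast (by omega : 1 ≤ d))
  have hcC1 : 1 ≤ c * C₁ := one_le_mul_of_one_le_of_one_le hc1 hC1
  have h2cC : 2 * c * C₁ = 2 * (c * C₁) := by ring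
  have hlc : 0 ≤ Real.log (4 * c * C₁) := Real.log_nonneg (by
    rw [show 4 * c * C₁ = 4 * (c * C₁) by ring]; linarith)
  obtain ⟨a, ha⟩ : ∃ a : ℝ, a = 6 * ld + 4 + 4 * Real.log (4 * c * C₁) := ⟨_, rfl⟩
  have ha4 : 4 ≤ a := by rw [ha]; linarith
  obtain ⟨K, hK⟩ : ∃ K : ℝ, K = C₁ + 4 + r := ⟨_, rfl⟩
  have hK5 : 5 ≤ K := by rw [hK]; linarith
  -- `m ≤ A b³ / ε²`
  obtain ⟨A0, hA0⟩ : ∃ A0 : ℝ, A0 = 4 * K * a * (2 * c * C₁) * 2 := ⟨_, rfl⟩
  have hA01 : 1 ≤ A0 := by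
    rw [hA0]
    have q1 : 1 ≤ K * a := one_le_mul_of_one_le_of_one_le (by linarith) (by linarith)
    have q2 : 1 ≤ K * a * (c * C₁) := one_le_mul_of_one_le_of_one_le q1 hcC1
    rw [show 4 * K * a * (2 * c * C₁) * 2 = 16 * (K * a * (c * C₁)) by ring]
    linarith
  have hlA : 0 ≤ Real.log A0 := Real.log_nonneg hA01
  obtain ⟨a2, ha2⟩ : ∃ a2 : ℝ, a2 = 2 * Real.log A0 + 8 := ⟨_, rfl⟩
  obtain ⟨C, hC⟩ : ∃ C : ℝ, C = A0 + c * A0 ^ 4 + c * a2 +
    4 * C₁ * (a + 2 * c * C₁ + 2 + a2) := ⟨_, rfl⟩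
  have ha20 : 0 ≤ a2 := by rw [ha2]; linarith
  have p1 : 0 ≤ c * A0 ^ 4 := by positivity
  have p2 : 0 ≤ c * a2 := by positivity
  have p3 : 0 ≤ 4 * C₁ * (a + 2 * c * C₁ + 2 + a2) := by positivity
  have hCpos : 0 < C := by rw [hC]; linarith
  refine ⟨C, hCpos, ?_⟩
  intro ε hε hε1 b hb x L _ hL Ψ hΨ hTI κ hκ hcond
  have hTIe := transInv_expec Ψ hΨ hTI
  have hb1 : (1 : ℝ) ≤ b := by exact_mod_cast hb
  have hb0 : (0 : ℝ) < b := by linarith
  obtain ⟨l, hl⟩ : ∃ l : ℝ, l = Real.log (2 / ε) := ⟨_, rfl⟩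
  have hl2 : 1 / 2 ≤ l := by
    rw [hl]
    have h3 : Real.log 2 ≤ Real.log (2 / ε) := by
      refine Real.log_le_log (by norm_num) ?_
      rw [le_div_iff₀ hε]
      linarith
    have := Real.log_two_gt_d9
    linarith
  have hl0 : 0 < l := by linarith
  have hle : l ≤ 2 / ε := by
    rw [hl]
    have := Real.log_le_sub_one_of_pos (show 0 < 2 / ε by positivity)
    linarith
  obtain ⟨ε', hε'⟩ : ∃ ε' : ℝ, ε' = ε / (2 * c * C₁) := ⟨_, rfl⟩
  have hε'0 : 0 < ε' := by rw [hε']; positivity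
  have hε'1 : ε' ≤ 1 := by
    rw [hε', div_le_one (by positivity), h2cC]
    linarith
  have hε'ε : ε' ≤ ε := by
    rw [hε', div_le_iff₀ (by positivity), h2cC]
    exact le_mul_of_one_le_right hε.le (by linarith)
  obtain ⟨δ, hδ⟩ : ∃ δ : ℝ, δ = ε' / 4 := ⟨_, rfl⟩
  have hδ0 : 0 < δ := by rw [hδ]; positivity
  have hδ2 : δ ≤ 1 / 2 := by rw [hδ]; linarith
  obtain ⟨J, hJ⟩ : ∃ J : ℝ, J = JJ d b δ := ⟨_, rfl⟩
  have hJa : J ≤ a * (b : ℝ) ^ 2 * l := by
    rw [hJ, ha]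
    exact num_J d b c C₁ ε l ε' δ ld hb hc1 hC1 hε hε1 hl hld hld0 hε' hδ
  have hlδ : 0 ≤ Real.log (1 / δ) := Real.log_nonneg (by rw [le_div_iff₀ hδ0]; linarith)
  have hJ1 : 1 ≤ J := by
    rw [hJ]
    unfold JJ
    rw [← hld]
    have : 0 ≤ (b : ℝ) ^ 2 * ld := by positivity
    linarith
  have hJ0 : 0 < J := by linarith
  -- the side of the torus
  obtain ⟨n, hn⟩ : ∃ n : ℕ, n = ⌈K * b * J / ε'⌉₊ := ⟨_, rfl⟩
  obtain ⟨W, hW⟩ : ∃ W : ℝ, W = K * b * J / ε' := ⟨_, rfl⟩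
  have hbJ : 1 ≤ (b : ℝ) * J := one_le_mul_of_one_le_of_one_le hb1 hJ1
  have hW5 : 5 ≤ W := by
    rw [hW, le_div_iff₀ hε'0]
    have q1 : 5 * 1 ≤ K * (b * J) := mul_le_mul hK5 hbJ (by norm_num) (by linarith)
    rw [show K * (b : ℝ) * J = K * (b * J) by ring]
    linarith
  have hWn : W ≤ n := by rw [hn, ← hW]; exact Nat.le_ceil _
  have hnW : (n : ℝ) ≤ W + 1 := by
    rw [hn, ← hW]
    exact (Nat.ceil_lt_add_one (by linarith)).le
  have hn0 : 0 < n := by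
    have : (0 : ℝ) < n := by linarith
    exact_mod_cast this
  have hNZ : NeZero (2 * n) := ⟨by omega⟩
  obtain ⟨m, hm⟩ : ∃ m : ℝ, m = ((2 * n : ℕ) : ℝ) := ⟨_, rfl⟩
  have hmm : m = 2 * n := by rw [hm]; push_cast; ring
  have hWm : 2 * W ≤ m := by rw [hmm]; linarith
  have hmW : m ≤ 4 * W := by rw [hmm]; linarith
  have hm1 : 1 ≤ m := by linarith
  -- upper bounds for the side
  have hb3 : W ≤ K * a * (2 * c * C₁) * (b : ℝ) ^ 3 * (l / ε) := by
    rw [hW, hε']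
    have e1 : K * b * J / (ε / (2 * c * C₁)) = K * b * (2 * c * C₁) * J / ε := by
      field_simp
    rw [e1]
    have e2 : K * a * (2 * c * C₁) * (b : ℝ) ^ 3 * (l / ε) =
        K * b * (2 * c * C₁) * (a * (b : ℝ) ^ 2 * l) / ε := by ring
    rw [e2]
    exact div_le_div_of_nonneg_right (mul_le_mul_of_nonneg_left hJa (by positivity)) hε.le
  have hup : m ≤ A0 * ((b : ℝ) ^ 3 * (l / ε) / 2) := by
    rw [hA0]
    calc m ≤ 4 * W := hmW
      _ ≤ 4 * (K * a * (2 * c * C₁) * (b : ℝ) ^ 3 * (l / ε)) := by linarith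
      _ = _ := by ring
  have hup2 : m ≤ A0 * (b / ε) ^ 3 := by
    refine hup.trans (mul_le_mul_of_nonneg_left ?_ (by linarith))
    have e1 : (b : ℝ) ^ 3 * (l / ε) / 2 = (b : ℝ) ^ 3 * (l / 2) / ε := by ring
    rw [e1, div_pow]
    have h5 : l / 2 ≤ 1 / ε := by
      have : 2 / ε / 2 = 1 / ε := by ring
      linarith
    have h6 : (b : ℝ) ^ 3 * (l / 2) / ε ≤ (b : ℝ) ^ 3 * (1 / ε) / ε :=
      div_le_div_of_nonneg_right (mul_le_mul_of_nonneg_left h5 (by positivity)) hε.le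
    refine h6.trans ?_
    rw [mul_one_div, div_div]
    refine div_le_div_of_nonneg_left (by positivity) (by positivity) ?_
    rw [show ε ^ 3 = (ε * ε) * ε by ring]
    exact mul_le_of_le_one_right (by positivity) hε1
  have hmL : m ≤ L := by
    refine hup2.trans (le_trans ?_ hL)
    exact mul_le_mul_of_nonneg_right (by rw [hC]; linarith) (by positivity)
  have hmL' : 2 * n ≤ L := by
    rw [hm] at hmL
    exact_mod_cast hmL
  have hbm : b ≤ 2 * n := by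
    have h5 : (b : ℝ) ≤ W := by
      rw [hW, le_div_iff₀ hε'0]
      have : (b : ℝ) * ε' ≤ b * 1 := mul_le_mul_of_nonneg_left hε'1 hb0.le
      have h6 : (b : ℝ) ≤ K * (b * J) := by
        have q1 : (b : ℝ) ≤ b * J := le_mul_of_one_le_right hb0.le hJ1
        have q2 : (b : ℝ) * J ≤ K * (b * J) := le_mul_of_one_le_left (by linarith) (by linarith)
        linarith
      rw [show K * (b : ℝ) * J = K * (b * J) by ring]
      linarith
    have h6 : (b : ℝ) ≤ ((2 * n : ℕ) : ℝ) := by rw [← hm]; linarith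
    exact_mod_cast h6
  have hbL : b ≤ L := hbm.trans hmL'
  have hrW : (r : ℝ) ≤ W := by
    rw [hW, le_div_iff₀ hε'0]
    have h6 : (r : ℝ) * 1 ≤ K * (b * J) := by
      refine mul_le_mul (by rw [hK]; linarith) hbJ (by norm_num) (by linarith)
    rw [show K * (b : ℝ) * J = K * (b * J) by ring]
    have h7 : (r : ℝ) * ε' ≤ r * 1 := mul_le_mul_of_nonneg_left hε'1 (by linarith)
    linarith
  have hrm : (r : ℝ) ≤ m := by linarith
  have hrL : r ≤ L := by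
    have : (r : ℝ) ≤ L := hrm.trans hmL
    exact_mod_cast this
  -- the interaction
  obtain ⟨h, hh, hhJ, hhC, hfree, hen⟩ := inter d b L (2 * n) hd (by omega) hbL hbm x Ψ hΨ δ hδ0
    hδ2
  rw [← hJ] at hhJ hhC hfree
  rw [← hm] at hfree
  obtain ⟨R', hR'⟩ : ∃ R' : ℕ, b = R' + 1 := ⟨b - 1, by omega⟩
  have hbR : (b : ℝ) = (R' : ℝ) + 1 := by rw [hR']; push_cast; ring
  have hmε : 4 * b * J ≤ m * ε' := by
    have h5 : W * ε' = K * (b * J) := by rw [hW]; field_simp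
    have h6 : 4 * ((b : ℝ) * J) ≤ K * (b * J) :=
      mul_le_mul_of_nonneg_right (by linarith) (by linarith)
    have h7 : W * ε' ≤ m * ε' := mul_le_mul_of_nonneg_right (by linarith) hε'0.le
    rw [show 4 * (b : ℝ) * J = 4 * (b * J) by ring]
    linarith
  have hκ' : 0 ≤ κ + ε' := by linarith
  have hfr : Real.log (NormedSpace.exp (-Pool.Agent.TH235.PP.ham h (2 * n))).trace.re +
      ((2 * n : ℕ) : ℝ) ^ 2 * (expec Ψ 0 (fun x y => h x y)).re ≤
        (κ + ε') * ((2 * n : ℕ) : ℝ) ^ 2 := by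
    rw [← hm]
    have h5 : (expec Ψ 0 (fun x y => h x y)).re ≤ κ + ε' / 2 := by
      rw [hδ] at hen
      linarith
    have h6 := mul_le_mul_of_nonneg_left h5 (show 0 ≤ m ^ 2 by positivity)
    have h7 : 2 * (b : ℝ) * m * J ≤ m ^ 2 * (ε' / 2) := by
      have q1 := mul_le_mul_of_nonneg_left hmε (show 0 ≤ m / 2 by linarith)
      rw [show m / 2 * (4 * (b : ℝ) * J) = 2 * (b : ℝ) * m * J by ring,
        show m / 2 * (m * ε') = m ^ 2 * (ε' / 2) by ring] at q1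
      exact q1
    rw [show (κ + ε') * m ^ 2 = m ^ 2 * (ε' / 2) + m ^ 2 * (κ + ε' / 2) by ring]
    linarith
  subst hR'
  have hcd : C₁' * ((R' : ℝ) + 1) * J / ε' ≤ ((2 * n : ℕ) : ℝ) := by
    rw [← hm]
    refine le_trans ?_ (le_trans (by linarith : W ≤ 2 * W) hWm)
    rw [hW]
    refine div_le_div_of_nonneg_right ?_ hε'0.le
    rw [← hbR]
    have h5 : C₁' ≤ K := by rw [hK]; linarith
    exact mul_le_mul_of_nonneg_right (mul_le_mul_of_nonneg_right h5 hb0.le) hJ0.le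
  obtain ⟨f, hf, hF⟩ := hreach R' n L hmL' ε' hε'0 hε'1 J hJ1 hcd Ψ hΨ hTIe h hh hhJ hhC (κ + ε')
    hκ' hfr
  rw [← hm, ← hbR] at hf
  have hF' : Reach d r (2 * n) f (fun B => expec Ψ 0 B) (ε / (2 * c)) := by
    refine Pool.Agent.N286.TP.reach_mono ?_ hF
    have h1 : C₁' * ε' ≤ C₁ * ε' := mul_le_mul_of_nonneg_right hCC hε'0.le
    have h2 : C₁ * ε' = ε / (2 * c) := by rw [hε']; field_simp
    linarith
  have hc3 : 2 * c / ε ≤ ((2 * n : ℕ) : ℝ) := by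
    rw [← hm]
    refine le_trans ?_ hWm
    rw [hW, hε', div_le_iff₀ hε]
    have e1 : 2 * (K * (((R' + 1 : ℕ)) : ℝ) * J / (ε / (2 * c * C₁))) * ε =
        2 * c * (2 * K * (((R' + 1 : ℕ) : ℝ) * J) * C₁) := by
      field_simp
    rw [e1]
    have h5 : 1 ≤ 2 * K * (((R' + 1 : ℕ) : ℝ) * J) * C₁ := by
      have q1 : 1 ≤ 2 * K := by linarith
      have q2 : 1 * 1 ≤ 2 * K * (((R' + 1 : ℕ) : ℝ) * J) := mul_le_mul q1 hbJ (by norm_num) (by linarith)
      have q3 : 1 * 1 ≤ (2 * K * (((R' + 1 : ℕ) : ℝ) * J)) * C₁ :=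
        mul_le_mul (by linarith) hC1 (by norm_num) (by linarith)
      linarith
    exact le_mul_of_one_le_right (by linarith) h5
  obtain ⟨D, A, hD, hA⟩ := hfin ε hε hε1 (2 * n) f L hc3 hrL _ hf Ψ hΨ hF'
  rw [← hm] at hD hA
  obtain ⟨β, hβ⟩ : ∃ β : ℝ, β = ((R' + 1 : ℕ) : ℝ) := ⟨_, rfl⟩
  rw [← hβ] at hD hb1 hb0 hJa hup hup2 hL ⊢
  refine ⟨D, A, hD.trans (Real.exp_le_exp.2 ?_), ?_⟩
  · rw [← hl]
    -- the logarithm of the side
    have hβ2 : 1 ≤ β ^ 2 := one_le_pow₀ hb1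
    have hβ24 : 1 ≤ β ^ 24 := one_le_pow₀ hb1
    have hβl0 : l ≤ β ^ 2 * l := le_mul_of_one_le_left hl0.le hβ2
    have hβl : 1 / 2 ≤ β ^ 2 * l := hl2.trans hβl0
    have hlm : Real.log m ≤ a2 * (β ^ 2 * l) := by
      have h1 : Real.log m ≤ Real.log (A0 * (β ^ 3 * (l / ε) / 2)) :=
        Real.log_le_log (by linarith) hup
      have h2 : β ^ 3 * (l / ε) / 2 ≤ β ^ 3 * (2 / ε) ^ 2 := by
        have h3 : l / ε ≤ (2 / ε) ^ 2 := by
          have e : (2 / ε) ^ 2 = (4 / ε) / ε := by ring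
          rw [e]
          refine div_le_div_of_nonneg_right (hle.trans ?_) hε.le
          exact div_le_div_of_nonneg_right (by norm_num) hε.le
        have h4 : 0 ≤ l / ε := by positivity
        have h5 : β ^ 3 * (l / ε) ≤ β ^ 3 * (2 / ε) ^ 2 := mul_le_mul_of_nonneg_left h3 (by positivity)
        have h6 : 0 ≤ β ^ 3 * (l / ε) := by positivity
        linarith
      have h3 : Real.log (A0 * (β ^ 3 * (l / ε) / 2)) ≤ Real.log (A0 * (β ^ 3 * (2 / ε) ^ 2)) := by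
        refine Real.log_le_log (by positivity) (mul_le_mul_of_nonneg_left h2 (by linarith))
      have h4 : Real.log (A0 * (β ^ 3 * (2 / ε) ^ 2)) = Real.log A0 + (3 * Real.log β + 2 * l) := by
        rw [Real.log_mul (by positivity) (by positivity), Real.log_mul (by positivity)
          (by positivity), Real.log_pow, Real.log_pow, hl]
        push_cast
        ring
      have h5 : Real.log β ≤ β ^ 2 := by
        have q1 := Real.log_le_sub_one_of_pos hb0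
        have q2 : β ≤ β ^ 2 := le_self_pow₀ hb1 (by norm_num)
        linarith
      have h6 : Real.log A0 ≤ 2 * Real.log A0 * (β ^ 2 * l) := by
        have := mul_le_mul_of_nonneg_left hβl (show 0 ≤ 2 * Real.log A0 by linarith)
        linarith
      have h7 : 3 * Real.log β ≤ 6 * (β ^ 2 * l) := by
        have := mul_le_mul_of_nonneg_left hl2 (show 0 ≤ β ^ 2 by positivity)
        linarith
      have h8 : 2 * l ≤ 2 * (β ^ 2 * l) := by linarith
      rw [ha2, show (2 * Real.log A0 + 8) * (β ^ 2 * l) =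
        2 * Real.log A0 * (β ^ 2 * l) + 8 * (β ^ 2 * l) by ring]
      linarith
    have hlm0 : 0 ≤ Real.log m := Real.log_nonneg hm1
    obtain ⟨s, hs⟩ : ∃ s : ℝ, s = κ / ε := ⟨_, rfl⟩
    have hs0 : 0 ≤ s := by rw [hs]; positivity
    rw [← hs]
    have e1 : (κ + ε') / ε' = 2 * c * C₁ * s + 1 := by
      rw [hs, hε']
      field_simp
    rw [e1]
    have hP : 0 ≤ β ^ 26 * (s + l) := by positivity
    have k1 : c * Real.log m ≤ c * a2 * (β ^ 26 * (s + l)) := by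
      have h1 : β ^ 2 * l ≤ β ^ 26 * (s + l) := by
        have h2 : β ^ 26 * (s + l) = β ^ 24 * (β ^ 2 * (s + l)) := by ring
        rw [h2]
        have h3 : β ^ 2 * l ≤ β ^ 2 * (s + l) := mul_le_mul_of_nonneg_left (by linarith) (by positivity)
        have h4 : β ^ 2 * (s + l) ≤ β ^ 24 * (β ^ 2 * (s + l)) :=
          le_mul_of_one_le_left (by positivity) hβ24
        linarith
      calc c * Real.log m ≤ c * (a2 * (β ^ 2 * l)) := mul_le_mul_of_nonneg_left hlm hc0.le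
        _ ≤ c * (a2 * (β ^ 26 * (s + l))) :=
            mul_le_mul_of_nonneg_left (mul_le_mul_of_nonneg_left h1 ha20) hc0.le
        _ = _ := by ring
    have k2 : J + (2 * c * C₁ * s + 1) + Real.log m ≤
        (a + 2 * c * C₁ + 2 + a2) * (β ^ 2 * (s + l)) := by
      have h1 : a * β ^ 2 * l ≤ a * (β ^ 2 * (s + l)) := by
        have : a * β ^ 2 * l = a * (β ^ 2 * l) := by ring
        rw [this]
        exact mul_le_mul_of_nonneg_left (mul_le_mul_of_nonneg_left (by linarith) (by positivity))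
          (by linarith)
      have h2 : 2 * c * C₁ * s ≤ 2 * c * C₁ * (β ^ 2 * (s + l)) := by
        refine mul_le_mul_of_nonneg_left ?_ (by positivity)
        have : s + l ≤ β ^ 2 * (s + l) := le_mul_of_one_le_left (by linarith) hβ2
        linarith
      have h3 : 1 ≤ 2 * (β ^ 2 * (s + l)) := by
        have : s + l ≤ β ^ 2 * (s + l) := le_mul_of_one_le_left (by linarith) hβ2
        linarith
      have h4 : a2 * (β ^ 2 * l) ≤ a2 * (β ^ 2 * (s + l)) :=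
        mul_le_mul_of_nonneg_left (mul_le_mul_of_nonneg_left (by linarith) (by positivity)) ha20
      rw [show (a + 2 * c * C₁ + 2 + a2) * (β ^ 2 * (s + l)) = a * (β ^ 2 * (s + l)) +
        2 * c * C₁ * (β ^ 2 * (s + l)) + 2 * (β ^ 2 * (s + l)) + a2 * (β ^ 2 * (s + l)) by ring]
      linarith
    have k3 : C₁' * β ^ 24 * (J + (2 * c * C₁ * s + 1) + Real.log m) ≤
        C₁ * (a + 2 * c * C₁ + 2 + a2) * (β ^ 26 * (s + l)) := by
      calc C₁' * β ^ 24 * (J + (2 * c * C₁ * s + 1) + Real.log m)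
          ≤ (C₁ * β ^ 24) * ((a + 2 * c * C₁ + 2 + a2) * (β ^ 2 * (s + l))) :=
            mul_le_mul (mul_le_mul_of_nonneg_right hCC (by positivity)) k2 (by positivity)
              (by positivity)
        _ = _ := by ring
    calc c * Real.log m + 4 * (C₁' * β ^ 24 * (J + (2 * c * C₁ * s + 1) + Real.log m))
        ≤ c * a2 * (β ^ 26 * (s + l)) +
          4 * (C₁ * (a + 2 * c * C₁ + 2 + a2) * (β ^ 26 * (s + l))) := by linarith
      _ = (c * a2 + 4 * C₁ * (a + 2 * c * C₁ + 2 + a2)) * (β ^ 26 * (s + l)) := by ring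
      _ ≤ C * (β ^ 26 * (s + l)) :=
          mul_le_mul_of_nonneg_right (by rw [hC]; linarith) hP
      _ = _ := by ring
  · intro L' _ hL'
    have hT : c * m ^ 4 ≤ L' := by
      refine le_trans ?_ hL'
      calc c * m ^ 4 ≤ c * (A0 * (β / ε) ^ 3) ^ 4 :=
            mul_le_mul_of_nonneg_left (pow_le_pow_left₀ (by linarith) hup2 4) hc0.le
        _ = c * A0 ^ 4 * (β / ε) ^ 12 := by ring
        _ ≤ C * (β / ε) ^ 12 :=
            mul_le_mul_of_nonneg_right (by rw [hC]; linarith) (by positivity)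
    have hrT : (r : ℝ) ≤ c * m ^ 4 := by
      have h1 : m ≤ m ^ 4 := le_self_pow₀ hm1 (by norm_num)
      have h2 : m ^ 4 ≤ c * m ^ 4 := le_mul_of_one_le_left (by positivity) hc1
      linarith
    exact hreg D L A Ψ (c * m ^ 4) ε hrL hrT hΨ hTIe hA L' hT

end Pool.Agent.U753.MK
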