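import Pool.Agent.U753.MK.Mk1

/-!
# Families with small conditional entropies
-/

set_option autoImplicit false

open scoped BigOperators ComplexConjugate Classical InnerProductSpace Matrix ComplexOrder
open scoped Matrix.Norms.L2Operator

noncomputable section

namespace Pool.Agent.U753.MK

open Pool.Agent.Y738.PE Pool.Agent.N658.TP

lemma log_half {ε : ℝ} (h0 : 0 < ε) (h1 : ε ≤ 1) :
    Real.log (2 / (ε / 2)) ≤ 2 * Real.log (2 / ε) := by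
  have h2 : 2 / (ε / 2) = 2 * (2 / ε) := by field_simp
  rw [h2, Real.log_mul (by norm_num) (by positivity)]
  have h3 : Real.log 2 ≤ Real.log (2 / ε) :=
    Real.log_le_log (by norm_num) (by rw [le_div_iff₀ h0]; linarith)
  linarith

lemma half_le_log {ε : ℝ} (h0 : 0 < ε) (h1 : ε ≤ 1) : 1 / 2 ≤ Real.log (2 / ε) := by
  have h3 : Real.log 2 ≤ Real.log (2 / ε) :=
    Real.log_le_log (by norm_num) (by rw [le_div_iff₀ h0]; linarith)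
  have := Real.log_two_gt_d9
  linarith

/-- From one conditional entropy for every `ε` to families. -/
theorem famB (d : ℕ) (hd : 2 ≤ d) (R : Finset (ℤ × ℤ)) : ∃ C : ℝ, 0 < C ∧
    ∀ Ψ : ∀ L : ℕ, Conf d L → ℂ,
    (∃ L₁ : ℕ, ∀ (L : ℕ) [NeZero L], L₁ ≤ L → nrm (Ψ L) = 1 ∧ TransInv (Ψ L)) →
    A2.Conv R Ψ → ∀ ε : ℝ, 0 < ε → ε ≤ 1 → ∀ (b : ℕ) (x : Fin b × Fin b) (κ : ℝ), 0 ≤ κ →
    (∃ L₂ : ℕ, ∀ (L : ℕ) [NeZero L], L₂ ≤ L → condE (rdm (Ψ L) b) x ≤ κ) →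
    ∃ (D : ℕ) (A : Tensor d D),
      (D : ℝ) ≤ Real.exp (C * (b : ℝ) ^ 26 * (κ / ε + Real.log (2 / ε))) ∧
      ∃ L₃ : ℕ, ∀ (L : ℕ) [NeZero L], L₃ ≤ L →
        nrm (pepsX A L) ≠ 0 ∧ Close R (Ψ L) (pepsX A L) ε := by
  obtain ⟨C, hC, H⟩ := mk1 d hd R
  refine ⟨2 * C, by linarith, ?_⟩
  intro Ψ hΨ hconv ε hε hε1 b x κ hκ hcond
  obtain ⟨L₁, hL₁⟩ := hΨ
  obtain ⟨L₂, hL₂⟩ := hcond
  have hb : 1 ≤ b := by
    have := x.1.2
    omega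
  have hε2 : 0 < ε / 2 := by linarith
  refine Pool.Agent.N658.TP.Sp.fam d R Ψ hconv _ ε hε
    ⟨max (max L₁ L₂) ⌈C * (b / (ε / 2)) ^ 3⌉₊, fun L _ hL => ?_⟩
  have hL1 : L₁ ≤ L := ((le_max_left _ _).trans (le_max_left _ _)).trans hL
  have hL2 : L₂ ≤ L := ((le_max_right _ _).trans (le_max_left _ _)).trans hL
  have hL3 : C * (b / (ε / 2)) ^ 3 ≤ (L : ℝ) :=
    (Nat.le_ceil _).trans (by exact_mod_cast (le_max_right _ _).trans hL)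
  obtain ⟨D, A, hD, hA⟩ := H (ε / 2) hε2 (by linarith) b hb x L hL3 (Ψ L) (hL₁ L hL1).1
    (hL₁ L hL1).2 κ hκ (hL₂ L hL2)
  refine ⟨D, A, hD.trans (Real.exp_le_exp.2 ?_), ⌈C * (b / (ε / 2)) ^ 12⌉₊, fun L' _ hL' => hA L' ?_⟩
  · have h1 : κ / (ε / 2) = 2 * (κ / ε) := by field_simp
    have h2 := log_half hε hε1
    rw [h1]
    have h3 : 0 ≤ C * (b : ℝ) ^ 26 := by positivity
    generalize (b : ℝ) ^ 26 = p at h3 ⊢
    calc C * p * (2 * (κ / ε) + Real.log (2 / (ε / 2)))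
        ≤ C * p * (2 * (κ / ε) + 2 * Real.log (2 / ε)) :=
          mul_le_mul_of_nonneg_left (by linarith) h3
      _ = _ := by ring
  · exact (Nat.le_ceil _).trans (by exact_mod_cast hL')

/-- exponentially small conditional entropies -/
theorem famExp (d : ℕ) (hd : 2 ≤ d) (R : Finset (ℤ × ℤ)) (a c : ℝ) (ha : 0 ≤ a) (hc : 0 < c) :
    ∃ C : ℝ, 0 < C ∧ ∀ Ψ : ∀ L : ℕ, Conf d L → ℂ,
    (∃ L₁ : ℕ, ∀ (L : ℕ) [NeZero L], L₁ ≤ L → nrm (Ψ L) = 1 ∧ TransInv (Ψ L)) →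
    A2.Conv R Ψ →
    (∀ b : ℕ, 1 ≤ b → ∃ x : Fin b × Fin b, ∃ L₂ : ℕ, ∀ (L : ℕ) [NeZero L], L₂ ≤ L →
      condE (rdm (Ψ L) b) x ≤ a * Real.exp (-(c * b))) →
    ∀ ε : ℝ, 0 < ε → ε ≤ 1 → ∃ (D : ℕ) (A : Tensor d D),
      (D : ℝ) ≤ Real.exp (C * Real.log (2 / ε) ^ 27) ∧
      ∃ L₃ : ℕ, ∀ (L : ℕ) [NeZero L], L₃ ≤ L →
        nrm (pepsX A L) ≠ 0 ∧ Close R (Ψ L) (pepsX A L) ε := by
  obtain ⟨C, hC, H⟩ := famB d hd R
  obtain ⟨B, hB⟩ : ∃ B : ℝ, B = (2 * Real.log (a + 1) + 1) / c + 4 := ⟨_, rfl⟩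
  have hla : 0 ≤ Real.log (a + 1) := Real.log_nonneg (by linarith)
  have hB0 : 0 < B := by rw [hB]; positivity
  refine ⟨3 * C * B ^ 26, by positivity, ?_⟩
  intro Ψ hΨ hconv hcond ε hε hε1
  obtain ⟨l, hl⟩ : ∃ l : ℝ, l = Real.log (2 / ε) := ⟨_, rfl⟩
  have hl2 : 1 / 2 ≤ l := by rw [hl]; exact half_le_log hε hε1
  obtain ⟨b, hb⟩ : ∃ b : ℕ, b = ⌈Real.log ((a + 1) / ε) / c⌉₊ + 1 := ⟨_, rfl⟩
  have hb1 : 1 ≤ b := by omega
  have hblow : Real.log ((a + 1) / ε) ≤ c * b := by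
    have h1 : Real.log ((a + 1) / ε) / c ≤ b := by
      rw [hb]
      push_cast
      have := Nat.le_ceil (Real.log ((a + 1) / ε) / c)
      linarith
    rwa [div_le_iff₀ hc, mul_comm] at h1
  have hla' : Real.log ((a + 1) / ε) ≤ Real.log (a + 1) + l := by
    have h1 : Real.log ((a + 1) / ε) = Real.log (a + 1) + Real.log (1 / ε) := by
      rw [← Real.log_mul (by positivity) (by positivity)]
      congr 1
      ring
    have h2 : Real.log (1 / ε) ≤ l := by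
      rw [hl]
      exact Real.log_le_log (by positivity) (div_le_div_of_nonneg_right (by norm_num) hε.le)
    linarith
  have hl0' : 0 ≤ Real.log ((a + 1) / ε) :=
    Real.log_nonneg (by rw [le_div_iff₀ hε]; linarith)
  have hbup : (b : ℝ) ≤ B * l := by
    have h1 : (b : ℝ) ≤ Real.log ((a + 1) / ε) / c + 2 := by
      rw [hb]
      push_cast
      have := (Nat.ceil_lt_add_one (show 0 ≤ Real.log ((a + 1) / ε) / c by positivity)).le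
      linarith
    have h2 : Real.log ((a + 1) / ε) / c ≤ (Real.log (a + 1) + l) / c :=
      div_le_div_of_nonneg_right hla' hc.le
    have h3 : (Real.log (a + 1) + l) / c ≤ (2 * Real.log (a + 1) + 1) / c * l := by
      rw [div_mul_eq_mul_div]
      refine div_le_div_of_nonneg_right ?_ hc.le
      have h4 := mul_le_mul_of_nonneg_left hl2 (show 0 ≤ 2 * Real.log (a + 1) by linarith)
      linarith
    rw [hB, add_mul]
    linarith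
  have hκ : a * Real.exp (-(c * b)) ≤ ε := by
    have h1 : Real.exp (-(c * b)) ≤ ε / (a + 1) := by
      have h2 : Real.exp (-(c * b)) ≤ Real.exp (-Real.log ((a + 1) / ε)) :=
        Real.exp_le_exp.2 (by linarith)
      rw [Real.exp_neg (Real.log _), Real.exp_log (by positivity), inv_div] at h2
      exact h2
    have h3 := mul_le_mul_of_nonneg_left h1 ha
    have h4 : a * (ε / (a + 1)) ≤ ε := by
      rw [mul_div_assoc', div_le_iff₀ (by linarith)]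
      linarith
    linarith
  obtain ⟨x, L₂, hL₂⟩ := hcond b hb1
  obtain ⟨D, A, hD, hA⟩ := H Ψ hΨ hconv ε hε hε1 b x ε hε.le ⟨L₂, fun L _ hL => (hL₂ L hL).trans hκ⟩
  refine ⟨D, A, hD.trans (Real.exp_le_exp.2 ?_), hA⟩
  rw [← hl, div_self hε.ne']
  have h1 : (b : ℝ) ^ 26 ≤ (B * l) ^ 26 := pow_le_pow_left₀ (Nat.cast_nonneg _) hbup 26
  rw [mul_pow] at h1
  have h2 : 1 + l ≤ 3 * l := by linarith
  have h5 : (0 : ℝ) ≤ (b : ℝ) ^ 26 := by positivity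
  have h6 : 0 ≤ B ^ 26 := by positivity
  have h7 : l ^ 27 = l ^ 26 * l := by ring
  have h8 : 0 ≤ l ^ 26 := by positivity
  rw [h7]
  generalize (b : ℝ) ^ 26 = p at h1 h5 ⊢
  generalize B ^ 26 = q at h1 h6 ⊢
  generalize l ^ 26 = t at h1 h8 ⊢
  calc C * p * (1 + l) ≤ C * (q * t) * (3 * l) :=
        mul_le_mul (mul_le_mul_of_nonneg_left h1 hC.le) h2 (by linarith) (by positivity)
    _ = _ := by ring

/-- vanishing conditional entropy -/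
theorem famZero (d : ℕ) (hd : 2 ≤ d) (R : Finset (ℤ × ℤ)) (b : ℕ) (x : Fin b × Fin b) :
    ∃ C : ℝ, 0 < C ∧ ∀ Ψ : ∀ L : ℕ, Conf d L → ℂ,
    (∃ L₁ : ℕ, ∀ (L : ℕ) [NeZero L], L₁ ≤ L → nrm (Ψ L) = 1 ∧ TransInv (Ψ L)) →
    A2.Conv R Ψ →
    (∀ η : ℝ, 0 < η → ∃ L₂ : ℕ, ∀ (L : ℕ) [NeZero L], L₂ ≤ L → condE (rdm (Ψ L) b) x ≤ η) →
    ∀ ε : ℝ, 0 < ε → ε ≤ 1 → ∃ (D : ℕ) (A : Tensor d D),
      (D : ℝ) ≤ (2 / ε) ^ C ∧
      ∃ L₃ : ℕ, ∀ (L : ℕ) [NeZero L], L₃ ≤ L →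
        nrm (pepsX A L) ≠ 0 ∧ Close R (Ψ L) (pepsX A L) ε := by
  obtain ⟨C, hC, H⟩ := famB d hd R
  have hb : 1 ≤ b := by
    have := x.1.2
    omega
  have hb0 : (0 : ℝ) < (b : ℝ) ^ 26 := by
    have : (0 : ℝ) < b := by exact_mod_cast hb
    positivity
  refine ⟨3 * C * (b : ℝ) ^ 26, by positivity, ?_⟩
  intro Ψ hΨ hconv hcond ε hε hε1
  obtain ⟨l, hl⟩ : ∃ l : ℝ, l = Real.log (2 / ε) := ⟨_, rfl⟩
  have hl2 : 1 / 2 ≤ l := by rw [hl]; exact half_le_log hε hε1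
  obtain ⟨D, A, hD, hA⟩ := H Ψ hΨ hconv ε hε hε1 b x ε hε.le (hcond ε hε)
  refine ⟨D, A, hD.trans ?_, hA⟩
  rw [Real.rpow_def_of_pos (by positivity), ← hl, div_self hε.ne']
  refine Real.exp_le_exp.2 ?_
  generalize (b : ℝ) ^ 26 = p at hb0 ⊢
  calc C * p * (1 + l) ≤ C * p * (3 * l) :=
        mul_le_mul_of_nonneg_left (by linarith) (by positivity)
    _ = _ := by ring

/-- power law -/
theorem famPow (d : ℕ) (hd : 2 ≤ d) (R : Finset (ℤ × ℤ)) (a s : ℝ) (ha : 0 ≤ a) (hs : 0 < s) :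
    ∃ C : ℝ, 0 < C ∧ ∀ Ψ : ∀ L : ℕ, Conf d L → ℂ,
    (∃ L₁ : ℕ, ∀ (L : ℕ) [NeZero L], L₁ ≤ L → nrm (Ψ L) = 1 ∧ TransInv (Ψ L)) →
    A2.Conv R Ψ →
    (∀ b : ℕ, 1 ≤ b → ∃ x : Fin b × Fin b, ∃ L₂ : ℕ, ∀ (L : ℕ) [NeZero L], L₂ ≤ L →
      condE (rdm (Ψ L) b) x ≤ a * (b : ℝ) ^ (-s)) →
    ∀ ε : ℝ, 0 < ε → ε ≤ 1 → ∃ (D : ℕ) (A : Tensor d D),
      (D : ℝ) ≤ Real.exp (C * ε ^ (-(26 / s)) * Real.log (2 / ε)) ∧
      ∃ L₃ : ℕ, ∀ (L : ℕ) [NeZero L], L₃ ≤ L →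
        nrm (pepsX A L) ≠ 0 ∧ Close R (Ψ L) (pepsX A L) ε := by
  obtain ⟨C, hC, H⟩ := famB d hd R
  refine ⟨C * 2 ^ 26 * (2 * a + 1), by positivity, ?_⟩
  intro Ψ hΨ hconv hcond ε hε hε1
  obtain ⟨l, hl⟩ : ∃ l : ℝ, l = Real.log (2 / ε) := ⟨_, rfl⟩
  have hl2 : 1 / 2 ≤ l := by rw [hl]; exact half_le_log hε hε1
  obtain ⟨t, ht⟩ : ∃ t : ℝ, t = ε ^ (-(1 / s)) := ⟨_, rfl⟩
  have ht1 : 1 ≤ t := by
    rw [ht, Real.rpow_neg hε.le]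
    refine one_le_inv_iff₀.2 ⟨Real.rpow_pos_of_pos hε _, ?_⟩
    exact Real.rpow_le_one hε.le hε1 (by positivity)
  obtain ⟨b, hb⟩ : ∃ b : ℕ, b = ⌈t⌉₊ := ⟨_, rfl⟩
  have hbt : t ≤ b := by rw [hb]; exact Nat.le_ceil _
  have hbt2 : (b : ℝ) ≤ 2 * t := by
    rw [hb]
    have := (Nat.ceil_lt_add_one (show 0 ≤ t by linarith)).le
    linarith
  have hb1 : 1 ≤ b := by
    have : (1 : ℝ) ≤ b := by linarith
    exact_mod_cast this
  have hκ : a * (b : ℝ) ^ (-s) ≤ a * ε := by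
    refine mul_le_mul_of_nonneg_left ?_ ha
    have h1 : (b : ℝ) ^ (-s) ≤ t ^ (-s) :=
      Real.rpow_le_rpow_of_nonpos (by linarith) hbt (by linarith)
    have h2 : t ^ (-s) = ε := by
      rw [ht, ← Real.rpow_mul hε.le, show -(1 / s) * -s = 1 by field_simp, Real.rpow_one]
    linarith
  obtain ⟨x, L₂, hL₂⟩ := hcond b hb1
  obtain ⟨D, A, hD, hA⟩ := H Ψ hΨ hconv ε hε hε1 b x (a * ε) (by positivity)
    ⟨L₂, fun L _ hL => (hL₂ L hL).trans hκ⟩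
  refine ⟨D, A, hD.trans (Real.exp_le_exp.2 ?_), hA⟩
  rw [← hl]
  have e1 : a * ε / ε = a := by field_simp
  rw [e1]
  have h1 : (b : ℝ) ^ 26 ≤ (2 * t) ^ 26 := pow_le_pow_left₀ (Nat.cast_nonneg _) hbt2 26
  rw [mul_pow] at h1
  have h2 : t ^ 26 = ε ^ (-(26 / s)) := by
    rw [ht, ← Real.rpow_natCast, ← Real.rpow_mul hε.le]
    congr 1
    push_cast
    field_simp
  rw [h2] at h1
  have h3 : a + l ≤ (2 * a + 1) * l := by
    have := mul_le_mul_of_nonneg_left hl2 (show 0 ≤ 2 * a by linarith)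
    linarith
  have h5 : (0 : ℝ) ≤ (b : ℝ) ^ 26 := by positivity
  have h6 : 0 ≤ ε ^ (-(26 / s)) := (Real.rpow_pos_of_pos hε _).le
  generalize (b : ℝ) ^ 26 = p at h1 h5 ⊢
  generalize ε ^ (-(26 / s)) = q at h1 h6 ⊢
  calc C * p * (a + l) ≤ C * (2 ^ 26 * q) * ((2 * a + 1) * l) :=
        mul_le_mul (mul_le_mul_of_nonneg_left h1 hC.le) h3 (by linarith) (by positivity)
    _ = _ := by ring

end Pool.Agent.U753.MK
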